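import Pool.Agent.Lib.MP_e1e491_gt.P3.Defs

/-! Unions and images of linearly locally connected sets. -/

namespace KP3

open Set Metric KP2

variable {F F' : Type} [MetricSpace F] [MetricSpace F'] {A B : Set F} {C p : ℝ}

theorem frb_join (hA : L1 A C) (hB : L1 B C) {x y n : F} (hx : x ∈ A) (hy : y ∈ B)
    (hn : n ∈ A) (hn' : n ∈ B) : ∃ E ⊆ A ∪ B, IsPreconnected E ∧ x ∈ E ∧ y ∈ E ∧
      ∀ w ∈ E, dist x w ≤ C * dist x n ∨ dist y w ≤ C * dist y n := by
  obtain ⟨E, hE, hc, h1, h2, h3⟩ := hA x hx n hn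
  obtain ⟨E', hE', hc', h1', h2', h3'⟩ := hB y hy n hn'
  refine ⟨E ∪ E', union_subset_union hE hE', hc.union n h2 h2' hc', Or.inl h1, Or.inr h1', ?_⟩
  rintro w (hw | hw)
  · exact Or.inl (h3 w hw)
  · exact Or.inr (h3' w hw)

theorem L1.union (hA : L1 A C) (hB : L1 B C) (hC : 1 ≤ C)
    (h : ∀ x ∈ A, ∀ y ∈ B, ∃ n ∈ A ∩ B, dist y n ≤ C * dist x y) : L1 (A ∪ B) (3 * C ^ 2) := by
  have hC2 : C ≤ C ^ 2 := by nlinarith
  have hC0 : 0 ≤ C := by linarith
  intro x hx y hy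
  have hd : 0 ≤ dist x y := dist_nonneg
  have e1 : C * dist x y ≤ C ^ 2 * dist x y := mul_le_mul_of_nonneg_right hC2 hd
  have e2 : dist x y ≤ C ^ 2 * dist x y := le_mul_of_one_le_left hd (hC.trans hC2)
  have e3 : 0 ≤ C ^ 2 * dist x y := hd.trans e2
  rcases hx with hx | hx <;> rcases hy with hy | hy
  · obtain ⟨E, hE, hc, h1, h2, h3⟩ := hA x hx y hy
    exact ⟨E, hE.trans subset_union_left, hc, h1, h2, fun w hw => by have := h3 w hw; linarith⟩
  · obtain ⟨n, ⟨hn, hn'⟩, hdn⟩ := h x hx y hy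
    obtain ⟨E, hE, hc, h1, h2, h3⟩ := frb_join hA hB hx hy hn hn'
    refine ⟨E, hE, hc, h1, h2, fun w hw => ?_⟩
    have e4 := mul_le_mul_of_nonneg_left hdn hC0
    rcases h3 w hw with h4 | h4
    · have e5 := mul_le_mul_of_nonneg_left (dist_triangle x y n) hC0
      linarith
    · have e5 := dist_triangle x y w
      linarith
  · obtain ⟨n, ⟨hn, hn'⟩, hdn⟩ := h y hy x hx
    rw [dist_comm y x] at hdn
    obtain ⟨E, hE, hc, h1, h2, h3⟩ := frb_join hB hA hx hy hn' hn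
    refine ⟨E, union_comm A B ▸ hE, hc, h1, h2, fun w hw => ?_⟩
    have e4 := mul_le_mul_of_nonneg_left hdn hC0
    rcases h3 w hw with h4 | h4
    · linarith
    · have e5 := mul_le_mul_of_nonneg_left (dist_triangle y x n) hC0
      rw [dist_comm y x] at e5
      have e6 := dist_triangle x y w
      linarith
  · obtain ⟨E, hE, hc, h1, h2, h3⟩ := hB x hx y hy
    exact ⟨E, hE.trans subset_union_right, hc, h1, h2, fun w hw => by have := h3 w hw; linarith⟩

/-- The centre may lie outside the set. -/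
theorem L2.out (hA : L2 A C) (hc : IsPreconnected A) (hC : 1 ≤ C) (x : F) {y z : F} (hy : y ∈ A)
    (hz : z ∈ A) : ∃ E ⊆ A, IsPreconnected E ∧ y ∈ E ∧ z ∈ E ∧
      ∀ w ∈ E, min (dist x y) (dist x z) ≤ 4 * C * dist x w := by
  by_cases h : ∀ w ∈ A, min (dist x y) (dist x z) ≤ 4 * C * dist x w
  · exact ⟨A, subset_rfl, hc, hy, hz, h⟩
  · push Not at h
    obtain ⟨x', hx', hlt⟩ := h
    obtain ⟨E, hE, hE', h1, h2, h3⟩ := hA x' hx' y hy z hz
    refine ⟨E, hE, hE', h1, h2, fun w hw => ?_⟩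
    have hC0 : 0 ≤ C := by linarith
    have e1 : min (dist x y) (dist x z) - dist x x' ≤ min (dist x' y) (dist x' z) := by
      refine le_min ?_ ?_
      · have := dist_triangle x x' y
        have := min_le_left (dist x y) (dist x z)
        linarith
      · have := dist_triangle x x' z
        have := min_le_right (dist x y) (dist x z)
        linarith
    have e2 := mul_le_mul_of_nonneg_left (dist_triangle x' x w) hC0
    rw [dist_comm x' x] at e2
    have e3 : dist x x' ≤ C * dist x x' := le_mul_of_one_le_left dist_nonneg hC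
    have e4 : 0 ≤ C * dist x w := mul_nonneg hC0 dist_nonneg
    have e5 := h3 w hw
    linarith

theorem L2.union (hA : L2 A C) (hB : L2 B C) (cA : IsPreconnected A) (cB : IsPreconnected B)
    (hC : 1 ≤ C) {a b : F} (ha : a ∈ A ∩ B) (hb : b ∈ A ∩ B) (hab : a ≠ b)
    (hd : Bornology.IsBounded (A ∪ B)) : ∃ C', L2 (A ∪ B) C' := by
  obtain ⟨R, hR⟩ := Metric.isBounded_iff.1 hd
  have hD : 0 < dist a b := dist_pos.2 hab
  have hR0 : 0 ≤ R := dist_nonneg.trans (hR (Or.inl ha.1) (Or.inl hb.1))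
  have hK0 : 0 ≤ 2 * R / dist a b := by positivity
  have key : ∀ x ∈ A ∪ B, ∀ y ∈ A ∪ B, ∀ n ∈ A ∩ B, dist a b ≤ 2 * dist x n →
      ∃ E ⊆ A ∪ B, IsPreconnected E ∧ y ∈ E ∧ n ∈ E ∧
        ∀ w ∈ E, dist x y ≤ (1 + 2 * R / dist a b) * (4 * C) * dist x w := by
    intro x hx y hy n hn hxn
    have h1 : dist x y ≤ (1 + 2 * R / dist a b) * min (dist x y) (dist x n) := by
      rcases le_total (dist x y) (dist x n) with h2 | h2
      · rw [min_eq_left h2]
        exact le_mul_of_one_le_left dist_nonneg (by linarith)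
      · rw [min_eq_right h2]
        have h3 : R ≤ 2 * R / dist a b * dist x n := by
          rw [div_mul_eq_mul_div, le_div_iff₀ hD]
          nlinarith
        have h4 := hR hx hy
        have h5 : 0 ≤ dist x n := dist_nonneg
        linarith
    have h6 : ∃ E ⊆ A ∪ B, IsPreconnected E ∧ y ∈ E ∧ n ∈ E ∧
        ∀ w ∈ E, min (dist x y) (dist x n) ≤ 4 * C * dist x w := by
      rcases hy with hy | hy
      · obtain ⟨E, hE, h7⟩ := hA.out cA hC x hy hn.1
        exact ⟨E, hE.trans subset_union_left, h7⟩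
      · obtain ⟨E, hE, h7⟩ := hB.out cB hC x hy hn.2
        exact ⟨E, hE.trans subset_union_right, h7⟩
    obtain ⟨E, hE, hc, h8, h9, h10⟩ := h6
    refine ⟨E, hE, hc, h8, h9, fun w hw => h1.trans ?_⟩
    rw [mul_assoc]
    exact mul_le_mul_of_nonneg_left (h10 w hw) (by linarith)
  refine ⟨(1 + 2 * R / dist a b) * (4 * C), fun x hx y hy z hz => ?_⟩
  have hn : ∃ n ∈ A ∩ B, dist a b ≤ 2 * dist x n := by
    have h1 := dist_triangle_left a b x
    rcases le_total (dist x a) (dist x b) with h2 | h2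
    · exact ⟨b, hb, by linarith⟩
    · exact ⟨a, ha, by linarith⟩
  obtain ⟨n, hn, hxn⟩ := hn
  obtain ⟨E, hE, hc, h1, h2, h3⟩ := key x hx y hy n hn hxn
  obtain ⟨E', hE', hc', h1', h2', h3'⟩ := key x hx z hz n hn hxn
  refine ⟨E ∪ E', union_subset hE hE', hc.union n h2 h2' hc', Or.inl h1, Or.inr h1', ?_⟩
  rintro w (hw | hw)
  · exact (min_le_left _ _).trans (h3 w hw)
  · exact (min_le_right _ _).trans (h3' w hw)

theorem frb_part {q r R : ℝ} (hA : Pk A C p) (hC : 0 ≤ C) (hq : p ≤ q) (hr : 0 < r) (hR : r ≤ R)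
    (ξ : F) {T : Finset F} (hT : (T : Set F) ⊆ A) (hs : Sepd r T) (hξ : ∀ z ∈ T, dist z ξ ≤ R) :
    (T.card : ℝ) ≤ C * 2 ^ p * (R / r) ^ q := by
  have h1 : 1 ≤ R / r := (one_le_div hr).2 hR
  rcases T.eq_empty_or_nonempty with rfl | ⟨ξ', hξ'⟩
  · rw [Finset.card_empty, Nat.cast_zero]
    positivity
  · have h2 := hA r (2 * R) hr (by linarith) ξ' (hT hξ') T hT hs fun z hz => by
      have := dist_triangle_right z ξ' ξ
      have := hξ z hz
      have := hξ ξ' hξ'
      linarith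
    rw [mul_div_assoc, Real.mul_rpow (by norm_num) (by linarith), ← mul_assoc] at h2
    exact h2.trans (mul_le_mul_of_nonneg_left (Real.rpow_le_rpow_of_exponent_le h1 hq)
      (by positivity))

theorem Pk.union {C' p' : ℝ} (hA : Pk A C p) (hB : Pk B C' p') (hC : 0 ≤ C) (hC' : 0 ≤ C')
    (hp : 0 ≤ p) (hp' : 0 ≤ p') : ∃ C'', Pk (A ∪ B) C'' (max p p') := by
  classical
  refine ⟨C * 2 ^ p + C' * 2 ^ p', fun r R hr hR ξ _ T hT hs hξ => ?_⟩
  have h1 := frb_part (T := T.filter (· ∈ A)) hA hC (le_max_left p p') hr hR ξ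
    (fun z hz => (Finset.mem_filter.1 hz).2)
    (fun x hx y hy => hs x (Finset.mem_filter.1 hx).1 y (Finset.mem_filter.1 hy).1)
    (fun z hz => hξ z (Finset.mem_filter.1 hz).1)
  have h2 := frb_part (T := T.filter (· ∉ A)) hB hC' (le_max_right p p') hr hR ξ
    (fun z hz => (hT (Finset.mem_filter.1 hz).1).resolve_left (Finset.mem_filter.1 hz).2)
    (fun x hx y hy => hs x (Finset.mem_filter.1 hx).1 y (Finset.mem_filter.1 hy).1)
    (fun z hz => hξ z (Finset.mem_filter.1 hz).1)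
  have h3 : (T.card : ℝ) = (T.filter (· ∈ A)).card + (T.filter (· ∉ A)).card := by
    rw [← Nat.cast_add, Finset.card_filter_add_card_filter_not]
  rw [h3, add_mul]
  exact add_le_add h1 h2

section

variable {f : F → F'} {L : ℝ} (hL : 1 ≤ L)
  (hf : ∀ x ∈ A, ∀ y ∈ A, dist (f x) (f y) ≤ L * dist x y ∧ dist x y ≤ L * dist (f x) (f y))
include hL hf

omit hL in
theorem frb_cont : ContinuousOn f A :=
  (LipschitzOnWith.of_dist_le' fun x hx y hy => (hf x hx y hy).1).continuousOn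

theorem L1.image (h : L1 A C) (hC : 1 ≤ C) : L1 (f '' A) (C * L ^ 2) := by
  rintro _ ⟨x, hx, rfl⟩ _ ⟨y, hy, rfl⟩
  obtain ⟨E, hE, hc, h1, h2, h3⟩ := h x hx y hy
  refine ⟨f '' E, image_mono hE, hc.image f ((frb_cont hf).mono hE), mem_image_of_mem f h1,
    mem_image_of_mem f h2, ?_⟩
  rintro _ ⟨w, hw, rfl⟩
  have hL0 : 0 ≤ L := by linarith
  have hC0 : 0 ≤ C := by linarith
  calc dist (f x) (f w) ≤ L * dist x w := (hf x hx w (hE hw)).1
    _ ≤ L * (C * dist x y) := mul_le_mul_of_nonneg_left (h3 w hw) hL0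
    _ ≤ L * (C * (L * dist (f x) (f y))) :=
      mul_le_mul_of_nonneg_left (mul_le_mul_of_nonneg_left (hf x hx y hy).2 hC0) hL0
    _ = C * L ^ 2 * dist (f x) (f y) := by ring

theorem L2.image (h : L2 A C) (hC : 1 ≤ C) : L2 (f '' A) (C * L ^ 2) := by
  rintro _ ⟨x, hx, rfl⟩ _ ⟨y, hy, rfl⟩ _ ⟨z, hz, rfl⟩
  obtain ⟨E, hE, hc, h1, h2, h3⟩ := h x hx y hy z hz
  refine ⟨f '' E, image_mono hE, hc.image f ((frb_cont hf).mono hE), mem_image_of_mem f h1,
    mem_image_of_mem f h2, ?_⟩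
  rintro _ ⟨w, hw, rfl⟩
  have hL0 : 0 ≤ L := by linarith
  have hC0 : 0 ≤ C := by linarith
  calc min (dist (f x) (f y)) (dist (f x) (f z)) ≤ L * min (dist x y) (dist x z) := by
        rw [mul_min_of_nonneg _ _ hL0]
        exact min_le_min (hf x hx y hy).1 (hf x hx z hz).1
    _ ≤ L * (C * dist x w) := mul_le_mul_of_nonneg_left (h3 w hw) hL0
    _ ≤ L * (C * (L * dist (f x) (f w))) :=
      mul_le_mul_of_nonneg_left (mul_le_mul_of_nonneg_left (hf x hx w (hE hw)).2 hC0) hL0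
    _ = C * L ^ 2 * dist (f x) (f w) := by ring

theorem Pk.image (h : Pk A C p) (hC : 0 ≤ C) (hp : 0 ≤ p) :
    Pk (f '' A) (C * (L ^ 2) ^ p) p := by
  classical
  rintro r R hr hR _ ⟨ξ, hξ, rfl⟩ T hT hs hd
  obtain ⟨T', hT', rfl⟩ := Finset.subset_set_image_iff.1 hT
  have hL0 : 0 < L := by linarith
  have h1 : r / L ≤ L * R := by
    have e1 : r / L ≤ r := div_le_self hr.le hL
    have e2 : R ≤ L * R := le_mul_of_one_le_left (by linarith) hL
    linarith
  have h2 := h (r / L) (L * R) (div_pos hr hL0) h1 ξ hξ T' hT'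
    (fun x hx y hy hxy => by
      have e1 := hf x (hT' hx) y (hT' hy)
      have e2 : f x ≠ f y := fun e3 => hxy (by
        have e4 := e1.2
        rw [e3, dist_self, mul_zero] at e4
        exact dist_le_zero.1 e4)
      have e5 := hs _ (Finset.mem_image_of_mem f hx) _ (Finset.mem_image_of_mem f hy) e2
      rw [div_le_iff₀ hL0, mul_comm]
      exact e5.trans e1.1)
    (fun z hz => (hf z (hT' hz) ξ hξ).2.trans
      (mul_le_mul_of_nonneg_left (hd _ (Finset.mem_image_of_mem f hz)) hL0.le))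
  have h3 : L * R / (r / L) = L ^ 2 * (R / r) := by
    field_simp
  rw [h3, Real.mul_rpow (by positivity) (div_nonneg (by linarith) hr.le), ← mul_assoc] at h2
  exact (Nat.cast_le.2 Finset.card_image_le).trans h2

end

theorem L1.mono {C' : ℝ} (h : L1 A C) (hC : C ≤ C') : L1 A C' := by
  intro x hx y hy
  obtain ⟨E, hE, hc, h1, h2, h3⟩ := h x hx y hy
  exact ⟨E, hE, hc, h1, h2, fun w hw =>
    (h3 w hw).trans (mul_le_mul_of_nonneg_right hC dist_nonneg)⟩

theorem L2.mono {C' : ℝ} (h : L2 A C) (hC : C ≤ C') : L2 A C' := by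
  intro x hx y hy z hz
  obtain ⟨E, hE, hc, h1, h2, h3⟩ := h x hx y hy z hz
  exact ⟨E, hE, hc, h1, h2, fun w hw =>
    (h3 w hw).trans (mul_le_mul_of_nonneg_right hC dist_nonneg)⟩

theorem Geo.sets (h : Geo F C p) :
    L1 (univ : Set F) C ∧ L2 (univ : Set F) C ∧ Pk (univ : Set F) C p := by
  refine ⟨fun x _ y _ => ?_, fun x _ y _ z _ => ?_, fun r R hr hR ξ _ T _ hs hd => ?_⟩
  · obtain ⟨E, hE⟩ := h.ll.llc1 x y
    exact ⟨E, subset_univ _, hE⟩
  · obtain ⟨E, hE⟩ := h.ll.llc2 x y z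
    exact ⟨E, subset_univ _, hE⟩
  · exact h.pack r R hr hR ξ T hs hd

theorem frb_pre {E : Set F} (hE : E ⊆ A) (hc : IsPreconnected E) :
    IsPreconnected (Subtype.val ⁻¹' E : Set A) := by
  rw [← Topology.IsInducing.subtypeVal.isPreconnected_image, Subtype.image_preimage_coe,
    inter_eq_self_of_subset_right hE]
  exact hc

theorem geo_of_sets {C₁ C₂ C₃ : ℝ} (h1 : L1 A C₁) (h2 : L2 A C₂) (h3 : Pk A C₃ p) (hp : 0 < p)
    (hp' : p < 2) : ∃ C', Geo A C' p := by
  have g1 := h1.mono ((le_max_left C₁ (max C₂ C₃)).trans (le_max_right 1 _))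
  have g2 := h2.mono (((le_max_left C₂ C₃).trans (le_max_right C₁ _)).trans (le_max_right 1 _))
  have g3 : C₃ ≤ max 1 (max C₁ (max C₂ C₃)) :=
    ((le_max_right C₂ C₃).trans (le_max_right C₁ _)).trans (le_max_right 1 _)
  refine ⟨max 1 (max C₁ (max C₂ C₃)), ⟨le_max_left _ _, fun x y => ?_, fun j => j.elim,
    fun x y z => ?_, fun j => j.elim⟩, hp, hp', fun r R hr hR ξ T hs hd => ?_⟩
  · obtain ⟨E, hE, hc, e1, e2, e3⟩ := g1 x x.2 y y.2
    exact ⟨Subtype.val ⁻¹' E, frb_pre hE hc, e1, e2, fun w hw => e3 w hw⟩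
  · obtain ⟨E, hE, hc, e1, e2, e3⟩ := g2 x x.2 y y.2 z z.2
    exact ⟨Subtype.val ⁻¹' E, frb_pre hE hc, e1, e2, fun w hw => e3 w hw⟩
  · have e1 := h3 r R hr hR ξ ξ.2 (T.map (Function.Embedding.subtype _))
      (fun z hz => by
        obtain ⟨z', -, rfl⟩ := Finset.mem_map.1 hz
        exact z'.2)
      (fun x hx y hy hxy => by
        obtain ⟨x', hx', rfl⟩ := Finset.mem_map.1 hx
        obtain ⟨y', hy', rfl⟩ := Finset.mem_map.1 hy
        exact hs x' hx' y' hy' fun e => hxy (by rw [e]))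
      (fun z hz => by
        obtain ⟨z', hz', rfl⟩ := Finset.mem_map.1 hz
        exact hd z' hz')
    rw [Finset.card_map] at e1
    exact e1.trans (mul_le_mul_of_nonneg_right g3
      (Real.rpow_nonneg (div_nonneg (by linarith) hr.le) _))

end KP3
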