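import Pool.Agent.Lib.MP_e1e491_gt.P3.Uni

/-! Holes and nearest points. -/

namespace KP3

open Set Metric KP2

theorem LL.conn {S : Type} [MetricSpace S] {C : ℝ} (h : LL S C) :
    IsPreconnected (univ : Set S) := by
  refine isPreconnected_of_forall_pair fun x _ y _ => ?_
  obtain ⟨E, h1, h2, h3, -⟩ := h.llc1 x y
  exact ⟨E, subset_univ _, h2, h3, h1⟩

namespace Em

variable {S : Type} [MetricSpace S] [CompactSpace S] {D : Em S} {O O' : Set Pl} {z w : Pl}
  {x : S}

theorem isCompact_range (D : Em S) : IsCompact (range D.ι) := by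
  exact _root_.isCompact_range D.cont

theorem range_nonempty (D : Em S) : (range D.ι).Nonempty := by
  exact ⟨_, D.mem_range_of_side (z := fun _ => 0) ⟨le_rfl, fun _ => zero_le_one⟩
    (i := false) (b := false) rfl⟩

theorem Hol.isOpen (h : D.Hol O) : IsOpen O := by
  obtain ⟨z, -, -, rfl⟩ := h
  exact D.isCompact_range.isClosed.isOpen_compl.connectedComponentIn

theorem Hol.isConnected (h : D.Hol O) : IsConnected O := by
  obtain ⟨z, -, hz, rfl⟩ := h
  exact isConnected_connectedComponentIn_iff.2 hz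

theorem Hol.not_mem (h : D.Hol O) (x : S) : D.ι x ∉ O := by
  obtain ⟨z, -, -, rfl⟩ := h
  exact fun hx => connectedComponentIn_subset _ _ hx ⟨x, rfl⟩

/-- A connected set that misses the boundary of the square. -/
theorem Hol.sub (h : D.Hol O) : O ⊆ QQ := by
  have hc := h.isConnected.isPreconnected
  have hn := h.not_mem
  obtain ⟨z, hz, hz', e⟩ := h
  have key : ∀ w ∈ QQ, w ∉ range D.ι → w ∈ {w : Pl | ∀ i, w i ∈ Ioo (0 : ℝ) 1} := by
    intro w hw hw' i
    refine ⟨lt_of_le_of_ne (hw.1 i) fun e => hw' ?_, lt_of_le_of_ne (hw.2 i) fun e => hw' ?_⟩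
    · exact D.mem_range_of_side hw (i := i) (b := false) e.symm
    · exact D.mem_range_of_side hw (i := i) (b := true) e
  have ho : IsOpen {w : Pl | ∀ i, w i ∈ Ioo (0 : ℝ) 1} := by
    rw [Set.ofPred_forall]
    exact isOpen_iInter_of_finite fun i => isOpen_Ioo.preimage (continuous_apply i)
  have hsub : {w : Pl | ∀ i, w i ∈ Ioo (0 : ℝ) 1} ⊆ QQ := fun w hw =>
    ⟨fun i => (hw i).1.le, fun i => (hw i).2.le⟩
  refine (hc.subset_left_of_subset_union ho (isClosed_Icc.isOpen_compl : IsOpen QQᶜ)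
    (disjoint_compl_right.mono_left hsub) (fun w hw => ?_)
    ⟨z, e ▸ mem_connectedComponentIn hz', key z hz hz'⟩).trans hsub
  by_cases hq : w ∈ QQ
  · refine Or.inl (key w hq ?_)
    rintro ⟨x, rfl⟩
    exact hn x hw
  · exact Or.inr hq

theorem Hol.eq_of_mem (h : D.Hol O) (h' : D.Hol O') (hz : z ∈ O) (hz' : z ∈ O') : O = O' := by
  obtain ⟨a, -, -, rfl⟩ := h
  obtain ⟨b, -, -, rfl⟩ := h'
  rw [connectedComponentIn_eq hz, connectedComponentIn_eq hz']

theorem Hol.sub_of_conn (h : D.Hol O) {K : Set Pl} (hK : IsPreconnected K)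
    (hd : ∀ x, D.ι x ∉ K) (hz : z ∈ O) (hz' : z ∈ K) : K ⊆ O := by
  obtain ⟨a, -, -, rfl⟩ := h
  rw [connectedComponentIn_eq hz]
  refine hK.subset_connectedComponentIn hz' ?_
  rintro w hw ⟨x, rfl⟩
  exact hd x hw

theorem Hol.closure_sub (h : D.Hol O) : closure O ⊆ O ∪ range D.ι := by
  obtain ⟨a, -, -, rfl⟩ := h
  exact closure_comp_subset D.isCompact_range.isClosed a

theorem cover (D : Em S) (hz : z ∈ QQ) : z ∈ range D.ι ∨ ∃ O, D.Hol O ∧ z ∈ O := by
  by_cases h : z ∈ range D.ι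
  · exact Or.inl h
  · exact Or.inr ⟨_, ⟨z, hz, h, rfl⟩, mem_connectedComponentIn h⟩

theorem isClosed_P (D : Em S) (O : Set Pl) : IsClosed (D.P O) := by
  exact isClosed_closure.preimage D.cont

theorem Hol.P_conn (h : D.Hol O) (hS : IsPreconnected (univ : Set S)) :
    IsPreconnected (D.P O) := by
  obtain ⟨a, -, -, rfl⟩ := h
  have h1 : IsPreconnected (range D.ι) := by
    rw [← image_univ]
    exact hS.image _ D.cont.continuousOn
  rw [← (D.cont.isClosedEmbedding D.inj).isInducing.isPreconnected_image, P,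
    image_preimage_eq_inter_range]
  exact bdry_conn D.isCompact_range.isClosed h1 a

theorem continuous_δ (D : Em S) : Continuous D.δ := by
  exact continuous_infDist_pt _

theorem δ_nonneg (D : Em S) (z : Pl) : 0 ≤ D.δ z := by
  exact infDist_nonneg

theorem δ_le (D : Em S) (z : Pl) (x : S) : D.δ z ≤ dist z (D.ι x) := by
  exact infDist_le_dist_of_mem ⟨x, rfl⟩

theorem δ_pos_iff (D : Em S) : 0 < D.δ z ↔ z ∉ range D.ι := by
  exact (D.isCompact_range.isClosed.notMem_iff_infDist_pos D.range_nonempty).symm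

theorem exists_ft (D : Em S) (z : Pl) : ∃ x, D.Ft z x := by
  obtain ⟨_, ⟨x, rfl⟩, h⟩ := D.isCompact_range.exists_infDist_eq_dist D.range_nonempty z
  exact ⟨x, h.symm⟩

theorem ft_self (D : Em S) (x : S) : D.Ft (D.ι x) x := by
  rw [Ft, dist_self]
  exact (infDist_zero_of_mem (mem_range_self x)).symm

theorem Ft.eq_of_ι {y : S} (h : D.Ft (D.ι y) x) : x = y := by
  have h1 : dist (D.ι y) (D.ι y) = D.δ (D.ι y) := D.ft_self y
  rw [dist_self] at h1
  exact (D.inj (dist_eq_zero.1 (Eq.trans h h1.symm))).symm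

theorem Ft.seg (h : D.Ft z x) (hw : w ∈ segment ℝ z (D.ι x)) : D.Ft w x ∧ D.δ w ≤ D.δ z := by
  have h1 := dist_add_dist_of_mem_segment hw
  have h2 : D.δ z ≤ D.δ w + dist z w := infDist_le_infDist_add_dist
  have h3 := D.δ_le w x
  have h4 : dist z (D.ι x) = D.δ z := h
  have h5 := dist_nonneg (x := z) (y := w)
  exact ⟨le_antisymm (by linarith) h3, by linarith⟩

theorem Ft.seg_sub (h : D.Ft z x) (hO : D.Hol O) (hz : z ∈ O) :
    segment ℝ z (D.ι x) ⊆ insert (D.ι x) O := by
  intro w hw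
  by_cases e : w = D.ι x
  · exact Or.inl e
  refine Or.inr (hO.sub_of_conn (convex_segment z w).isPreconnected (fun y hy => e ?_) hz
    (left_mem_segment ℝ z w) (right_mem_segment ℝ z w))
  have h1 := (convex_segment z (D.ι x)).segment_subset (left_mem_segment ℝ _ _) hw hy
  obtain rfl := (h.seg h1).1.eq_of_ι
  have h2 := dist_add_dist_of_mem_segment hw
  have h3 := dist_add_dist_of_mem_segment hy
  have h4 := dist_nonneg (x := w) (y := D.ι x)
  have h5 := dist_nonneg (x := D.ι x) (y := w)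
  exact dist_eq_zero.1 (by linarith)

theorem Ft.mem_P (h : D.Ft z x) (hO : D.Hol O) (hz : z ∈ O) : x ∈ D.P O := by
  have h1 : openSegment ℝ z (D.ι x) ⊆ O := fun w hw =>
    (h.seg_sub hO hz (openSegment_subset_segment _ _ _ hw)).resolve_left fun e => by
      rw [e, right_mem_openSegment_iff] at hw
      exact hO.not_mem x (hw ▸ hz)
  exact closure_mono h1 (segment_subset_closure_openSegment (right_mem_segment ℝ _ _))

theorem isClosed_ft (D : Em S) {A : Set S} (hA : IsClosed A) :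
    IsClosed {z | ∃ x ∈ A, D.Ft z x} := by
  have h1 : IsClosed {q : Pl × S | q.2 ∈ A ∧ dist q.1 (D.ι q.2) = D.δ q.1} :=
    (hA.preimage continuous_snd).inter
      (isClosed_eq (continuous_fst.dist (D.cont.comp continuous_snd))
        (D.continuous_δ.comp continuous_fst))
  have h2 := isClosedMap_fst_of_compactSpace _ h1
  convert h2 using 1
  ext z
  exact ⟨fun ⟨x, a, b⟩ => ⟨(z, x), ⟨a, b⟩, rfl⟩, fun ⟨q, ⟨a, b⟩, e⟩ => ⟨q.2, a, e ▸ b⟩⟩

theorem exists_om (D : Em S) {r : ℝ} (hr : 0 < r) : ∃ ω : ℝ, 0 < ω ∧ D.Om r ω := by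
  have h1 : IsCompact {q : S × S | r ≤ dist q.1 q.2} :=
    (isClosed_le continuous_const continuous_dist).isCompact
  obtain ⟨c, hc, h2⟩ := h1.exists_forall_le'
    (f := fun q : S × S => dist (D.ι q.1) (D.ι q.2))
    ((D.cont.comp continuous_fst).dist (D.cont.comp continuous_snd)).continuousOn (a := 0)
    fun q hq => dist_pos.2 fun e => by
      have h3 : r ≤ dist q.1 q.2 := hq
      rw [D.inj e, dist_self] at h3
      exact absurd hr (not_lt.2 h3)
  refine ⟨c / 4, by positivity, fun x x' h => ?_⟩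
  by_contra h3
  have h4 := h2 (x, x') (not_le.1 h3).le
  dsimp only at h4
  linarith

theorem Om.ft {r ω : ℝ} (h : D.Om r ω) {x' : S} (hx : D.Ft z x) (hx' : D.Ft z x')
    (hz : D.δ z ≤ ω) : dist x x' ≤ r := by
  refine h x x' ?_
  have h1 := dist_triangle_left (D.ι x) (D.ι x') z
  have h2 : dist z (D.ι x) = D.δ z := hx
  have h3 : dist z (D.ι x') = D.δ z := hx'
  have h4 := D.δ_nonneg z
  linarith

end Em

end KP3
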