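import Pool.Agent.Lib.MP_e1e491_gt.P3.FrA
import Pool.Agent.Lib.MP_e1e491_gt.P3.FrB
import Pool.Agent.Lib.MP_e1e491_gt.P3.Hole

/-! Adding the boundary of the square to the space. -/

namespace KP3

open Set Metric KP2

section

variable {E : Type} [NormedAddCommGroup E] [NormedSpace ℝ E]

/-- The embedding of the plane that is used for the boundary of the square. -/
def frame_T (u v : E) (P Q y : Pl) : E × Pl :=
  (u + y false • (v - u), y - P - y false • (Q - P))

theorem frame_lip {u v : E} (huv : u ≠ v) {P Q : Pl} (hPQ : ‖Q - P‖ ≤ 1) : ∃ L : ℝ, 1 ≤ L ∧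
    ∀ y y' : Pl, dist (frame_T u v P Q y) (frame_T u v P Q y') ≤ L * dist y y' ∧
      dist y y' ≤ L * dist (frame_T u v P Q y) (frame_T u v P Q y') := by
  have hD : 0 < ‖v - u‖ := norm_pos_iff.mpr (sub_ne_zero.mpr huv.symm)
  have hD' : 0 < ‖v - u‖⁻¹ := inv_pos.mpr hD
  refine ⟨2 + ‖v - u‖ + ‖v - u‖⁻¹, by linarith, fun y y' => ?_⟩
  have e1 : dist (frame_T u v P Q y).1 (frame_T u v P Q y').1 = |y false - y' false| * ‖v - u‖ := by
    simp only [frame_T]
    rw [dist_eq_norm, add_sub_add_left_eq_sub, ← sub_smul, norm_smul, Real.norm_eq_abs]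
  have e2 : (frame_T u v P Q y).2 - (frame_T u v P Q y').2 =
      y - y' - (y false - y' false) • (Q - P) := by
    simp only [frame_T, sub_smul]
    abel
  have e3 : |y false - y' false| ≤ dist y y' := by
    rw [← Real.dist_eq]
    exact dist_le_pi_dist y y' false
  have e4 : ‖(y false - y' false) • (Q - P)‖ ≤ |y false - y' false| := by
    rw [norm_smul, Real.norm_eq_abs]
    exact mul_le_of_le_one_right (abs_nonneg _) hPQ
  have h0 : 0 ≤ dist y y' := dist_nonneg
  constructor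
  · rw [Prod.dist_eq, max_le_iff, e1, dist_eq_norm _ (frame_T u v P Q y').2, e2]
    have := norm_sub_le (y - y') ((y false - y' false) • (Q - P))
    rw [← dist_eq_norm y y'] at this
    have a1 := mul_le_mul_of_nonneg_right e3 hD.le
    have a2 := mul_nonneg hD.le h0
    have a3 := mul_nonneg hD'.le h0
    constructor <;> linarith
  · set m := dist (frame_T u v P Q y) (frame_T u v P Q y') with hm
    have m0 : 0 ≤ m := dist_nonneg
    have m1 : |y false - y' false| * ‖v - u‖ ≤ m := by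
      rw [← e1, hm, Prod.dist_eq]
      exact le_max_left _ _
    have m2 : ‖y - y' - (y false - y' false) • (Q - P)‖ ≤ m := by
      rw [← e2, ← dist_eq_norm, hm, Prod.dist_eq]
      exact le_max_right _ _
    have m3 : |y false - y' false| ≤ ‖v - u‖⁻¹ * m := by
      rw [le_inv_mul_iff₀ hD, mul_comm]
      exact m1
    have := norm_sub_norm_le (y - y') ((y false - y' false) • (Q - P))
    rw [← dist_eq_norm y y'] at this
    have a2 := mul_nonneg hD.le m0
    linarith

theorem frame_left (u v : E) (P Q : Pl) {y : Pl} (h : y false = 0) :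
    frame_T u v P Q y = (u, y - P) := by
  simp [frame_T, h]

theorem frame_right (u v : E) (P Q : Pl) {y : Pl} (h : y false = 1) :
    frame_T u v P Q y = (v, y - Q) := by
  simp [frame_T, h]

theorem frame_top (u v : E) {P Q y : Pl} (hP : 1 / 3 ≤ P true ∧ P true ≤ 2 / 3)
    (hQ : 1 / 3 ≤ Q true ∧ Q true ≤ 2 / 3) (hy : y ∈ Fr) :
    y false = 0 ∨ y false = 1 ∨ 1 / 3 ≤ ‖(frame_T u v P Q y).2‖ := by
  obtain ⟨⟨h0, h1⟩, i, b, h⟩ := mem_Fr.mp hy
  have a0 : 0 ≤ y false := h0 false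
  have a1 : y false ≤ 1 := h1 false
  cases i
  · cases b
    · exact Or.inl h
    · exact Or.inr (Or.inl h)
  · refine Or.inr (Or.inr (le_trans ?_ (norm_le_pi_norm _ true)))
    simp only [frame_T, Pi.sub_apply, Pi.smul_apply, smul_eq_mul, Real.norm_eq_abs, le_abs]
    cases b
    · right
      have : y true = 0 := h
      nlinarith [mul_nonneg a0 (sub_nonneg.mpr hQ.1),
        mul_nonneg (sub_nonneg.mpr a1) (sub_nonneg.mpr hP.1)]
    · left
      have : y true = 1 := h
      nlinarith [mul_nonneg a0 (sub_nonneg.mpr hQ.2),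
        mul_nonneg (sub_nonneg.mpr a1) (sub_nonneg.mpr hP.2)]

theorem frame_dist {y z : Pl} (hy : y ∈ QQ) (hz : z ∈ QQ) : ‖y - z‖ ≤ 1 := by
  refine (pi_norm_le_iff_of_nonneg zero_le_one).mpr fun i => ?_
  have a0 : 0 ≤ y i := hy.1 i
  have a1 : y i ≤ 1 := hy.2 i
  have b0 : 0 ≤ z i := hz.1 i
  have b1 : z i ≤ 1 := hz.2 i
  rw [Pi.sub_apply, Real.norm_eq_abs, abs_le]
  constructor <;> linarith

/-- Gluing along a common quotient. -/
theorem frame_glue {X F : Type} [TopologicalSpace X] [CompactSpace X] [MetricSpace F]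
    {Φ : X → F} (hΦ : Continuous Φ) (hs : Function.Surjective Φ) {g : X → Pl} (hg : Continuous g)
    (h : ∀ u v, Φ u = Φ v ↔ g u = g v) (h1 : ∀ u, g u ∈ QQ) (h2 : Fr ⊆ range g) :
    Nonempty (Em F) := by
  have e : ∀ u, g (Function.surjInv hs (Φ u)) = g u :=
    fun u => (h _ _).mp (Function.surjInv_eq hs _)
  have hq : Topology.IsQuotientMap Φ := hΦ.isClosedMap.isQuotientMap hΦ hs
  refine ⟨⟨fun w => g (Function.surjInv hs w), hq.continuous_iff.mpr ?_, fun w w' hw => ?_,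
    fun w => h1 _, fun {z} hz {i b} hb => ?_⟩⟩
  · exact hg.congr fun u => (e u).symm
  · rw [← Function.surjInv_eq hs w, ← Function.surjInv_eq hs w']
    exact (h _ _).mpr hw
  · obtain ⟨u, hu⟩ := h2 (mem_Fr.mpr ⟨hz, i, b, hb⟩)
    exact ⟨Φ u, (e u).trans hu⟩

theorem frame_aux {S : Type} [MetricSpace S] [CompactSpace S] [Nontrivial S] {ι : S → Pl}
    (hc : Continuous ι) (hi : Function.Injective ι) {C p : ℝ} (hG : Geo S C p) {k : S → E}
    (hk : Isometry k) :
    ∃ (S' : Type) (_ : MetricSpace S') (_ : CompactSpace S') (_ : Em S') (j : S → S') (C' p' : ℝ),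
      Isometry j ∧ Geo S' C' p' := by
  obtain ⟨ι, a, b, hc, hi, hb, h0, h1⟩ := exists_normal hc hi
  have ha0 : ι a false = 0 := (h0 a).mpr rfl
  have hb1 : ι b false = 1 := (h1 b).mpr rfl
  have hab : a ≠ b := fun e => by
    rw [e, hb1] at ha0
    exact one_ne_zero ha0
  have hQ : ∀ x, ι x ∈ QQ := fun x => by
    obtain ⟨a1, a2, a3, a4⟩ := hb x
    constructor <;> intro i <;> cases i <;> simp only [Pi.zero_apply, Pi.one_apply] <;> linarith
  have haF : ι a ∈ Fr := mem_Fr.mpr ⟨hQ a, false, false, ha0⟩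
  have hbF : ι b ∈ Fr := mem_Fr.mpr ⟨hQ b, false, true, hb1⟩
  obtain ⟨L, hL, hT⟩ := frame_lip (fun e => hab (hk.injective e) : k a ≠ k b)
    (frame_dist (hQ b) (hQ a))
  have htop := fun y hy => frame_top (y := y) (k a) (k b) ⟨(hb a).1, (hb a).2.1⟩
    ⟨(hb b).1, (hb b).2.1⟩ hy
  have hl := fun y hy => frame_left (y := y) (k a) (k b) (ι a) (ι b) hy
  have hr := fun y hy => frame_right (y := y) (k a) (k b) (ι a) (ι b) hy
  generalize frame_T (k a) (k b) (ι a) (ι b) = T at hT htop hl hr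
  set Φ : S → E × Pl := fun x => (k x, 0) with hΦ
  have hΦi : Isometry Φ := Isometry.of_dist_eq fun x y => by
    simp [hΦ, hk.dist_eq]
  have Ta : T (ι a) = Φ a := by rw [hl _ ha0, sub_self]
  have Tb : T (ι b) = Φ b := by rw [hr _ hb1, sub_self]
  have hTc : Continuous T := by
    refine (LipschitzWith.of_dist_le_mul (K := ⟨L, by linarith⟩) fun y y' => ?_).continuous
    exact (hT y y').1
  have hTi : Function.Injective T := fun y y' e => by
    have := (hT y y').2
    rw [e, dist_self, mul_zero] at this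
    exact dist_le_zero.mp this
  have hC := hG.one_le
  obtain ⟨s1, s2, s3⟩ := hG.sets
  have hS : ∀ x ∈ (univ : Set S), ∀ y ∈ (univ : Set S),
      dist (Φ x) (Φ y) ≤ 1 * dist x y ∧ dist x y ≤ 1 * dist (Φ x) (Φ y) := by
    intro x _ y _
    rw [hΦi.dist_eq, one_mul]
    exact ⟨le_rfl, le_rfl⟩
  have hF : ∀ x ∈ Fr, ∀ y ∈ Fr, dist (T x) (T y) ≤ L * dist x y ∧
      dist x y ≤ L * dist (T x) (T y) := fun x _ y _ => hT x y
  have hL2 : 0 ≤ L ^ 2 := sq_nonneg L
  have c1 : C * 1 ^ 2 ≤ C + 4 * L ^ 2 + 3 * L := by linarith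
  have c2 : 4 * L ^ 2 ≤ C + 4 * L ^ 2 + 3 * L := by linarith
  have c3 : 1 ≤ C + 4 * L ^ 2 + 3 * L := by linarith
  have na : Φ a ∈ Φ '' univ ∩ T '' Fr := ⟨⟨a, trivial, rfl⟩, ι a, haF, Ta⟩
  have nb : Φ b ∈ Φ '' univ ∩ T '' Fr := ⟨⟨b, trivial, rfl⟩, ι b, hbF, Tb⟩
  have hcp : IsCompact (Φ '' univ ∪ T '' Fr) :=
    (isCompact_univ.image hΦi.continuous).union (isCompact_Fr.image hTc)
  have g1 := L1.union ((s1.image le_rfl hS hC).mono c1)
    ((l1_Fr.image hL hF (by norm_num)).mono c2) c3 (by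
      rintro _ ⟨x, -, rfl⟩ _ ⟨y, hy, rfl⟩
      have d0 : ‖(T y).2‖ ≤ dist (Φ x) (T y) := by
        rw [Prod.dist_eq]
        refine le_trans (le_of_eq ?_) (le_max_right _ _)
        simp [hΦ]
      have d1 : 0 ≤ dist (Φ x) (T y) := dist_nonneg
      have d2 : ∀ z : Pl, ‖y - z‖ ≤ 3 * dist (Φ x) (T y) →
          dist (T y) (T z) ≤ (C + 4 * L ^ 2 + 3 * L) * dist (Φ x) (T y) := by
        intro z hz
        have a1 := (hT y z).1
        rw [dist_eq_norm y z] at a1
        have a2 := mul_le_mul_of_nonneg_left hz (by linarith : 0 ≤ L)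
        have a3 := mul_nonneg (by linarith : 0 ≤ C + 4 * L ^ 2) d1
        linarith
      rcases htop y hy with e | e | e
      · rw [hl y e] at d0
        exact ⟨Φ a, na, Ta ▸ d2 _ (by rw [hl y e] at d1 ⊢; linarith)⟩
      · rw [hr y e] at d0
        exact ⟨Φ b, nb, Tb ▸ d2 _ (by rw [hr y e] at d1 ⊢; linarith)⟩
      · exact ⟨Φ a, na, Ta ▸ d2 _ (by linarith [frame_dist (mem_Fr.mp hy).1 (hQ a)])⟩)
  obtain ⟨C₂, g2⟩ := L2.union ((s2.image le_rfl hS hC).mono c1)
    ((l2_Fr.image hL hF (by norm_num)).mono c2)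
    (hG.ll.conn.image _ hΦi.continuous.continuousOn) (conn_Fr.image _ hTc.continuousOn) c3 na nb
    (fun e => hab (hΦi.injective e)) hcp.isBounded
  obtain ⟨C₃, g3⟩ := Pk.union (s3.image le_rfl hS (by linarith) hG.p_pos.le)
    (pk_Fr.image hL hF (by norm_num) zero_le_one) (by positivity) (by positivity) hG.p_pos.le
    zero_le_one
  obtain ⟨C', g⟩ := geo_of_sets g1 g2 g3 (lt_max_of_lt_right one_pos)
    (max_lt hG.p_lt one_lt_two)
  have mix : ∀ x, ∀ y ∈ Fr, Φ x = T y ↔ ι x = y := by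
    intro x y hy
    constructor
    · intro e
      have e2 : (T y).2 = 0 := by rw [← e]
      rcases htop y hy with f | f | f
      · rw [hl y f] at e2
        rw [sub_eq_zero.mp e2, Ta] at e
        rw [hΦi.injective e, sub_eq_zero.mp e2]
      · rw [hr y f] at e2
        rw [sub_eq_zero.mp e2, Tb] at e
        rw [hΦi.injective e, sub_eq_zero.mp e2]
      · rw [e2, norm_zero] at f
        linarith
    · rintro rfl
      obtain ⟨-, i, c, f⟩ := mem_Fr.mp hy
      obtain ⟨a1, a2, -⟩ := hb x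
      cases i <;> cases c
      · rw [(h0 x).mp f, Ta]
      · rw [(h1 x).mp f, Tb]
      · have : ι x true = 0 := f
        linarith
      · have : ι x true = 1 := f
        linarith
  have := isCompact_iff_compactSpace.mp isCompact_Fr
  obtain ⟨D⟩ := frame_glue (X := S ⊕ Fr) (F := ↥(Φ '' univ ∪ T '' Fr))
    (Φ := Sum.elim (fun x => ⟨Φ x, Or.inl ⟨x, trivial, rfl⟩⟩)
      fun y => ⟨T y, Or.inr ⟨y, y.2, rfl⟩⟩)
    ((hΦi.continuous.subtype_mk _).sumElim ((hTc.comp continuous_subtype_val).subtype_mk _))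
    (by
      rintro ⟨_, ⟨x, -, rfl⟩ | ⟨y, hy, rfl⟩⟩
      · exact ⟨Sum.inl x, rfl⟩
      · exact ⟨Sum.inr ⟨y, hy⟩, rfl⟩)
    (g := Sum.elim ι Subtype.val) (hc.sumElim continuous_subtype_val)
    (by
      rintro (x | y) (x' | y') <;> simp only [Sum.elim_inl, Sum.elim_inr, Subtype.mk.injEq]
      · rw [hΦi.injective.eq_iff, hi.eq_iff]
      · exact mix x y' y'.2
      · rw [eq_comm, mix x' y y.2, eq_comm]
      · exact hTi.eq_iff)
    (by
      rintro (x | y)
      · exact hQ x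
      · exact (mem_Fr.mp y.2).1)
    fun y hy => ⟨Sum.inr ⟨y, hy⟩, rfl⟩
  exact ⟨↥(Φ '' univ ∪ T '' Fr), inferInstance, isCompact_iff_compactSpace.mp hcp, D,
    fun x => ⟨Φ x, Or.inl ⟨x, trivial, rfl⟩⟩, C', max p 1,
    Isometry.of_dist_eq fun x y => hΦi.dist_eq x y, g⟩

end

theorem exists_frame {S : Type} [MetricSpace S] [CompactSpace S] [Nontrivial S] {ι : S → Pl}
    (hc : Continuous ι) (hi : Function.Injective ι) {C p : ℝ} (hG : Geo S C p) :
    ∃ (S' : Type) (_ : MetricSpace S') (_ : CompactSpace S') (_ : Em S') (j : S → S') (C' p' : ℝ),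
      Isometry j ∧ Geo S' C' p' :=
  frame_aux hc hi hG (kuratowskiEmbedding.isometry S)

end KP3
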