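import Pool.Agent.Lib.MP_e1e491_gt.P3.Limit
import Pool.Agent.Lib.MP_e1e491_gt.P3.Frame

/-! Quasisymmetric embedding of a planar continuum of dimension less than two. -/

namespace KP3

open Set Metric KP2
open scoped NNReal

theorem exists_wqs {S : Type} [MetricSpace S] [CompactSpace S] [Nontrivial S] {ι : S → Pl}
    (hc : Continuous ι) (hi : Function.Injective ι) {C p : ℝ} (hG : Geo S C p) :
    ∃ f : S → S2, WQS f ∧ Function.Injective f := by
  obtain ⟨S', _, _, D, j, C', p', hj, hG'⟩ := exists_frame hc hi hG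
  obtain ⟨g, M, hg, hn, hM⟩ := exists_sqs D hG'
  have hw : WQS g := wqs_of_small hG'.pack hG'.p_pos hG'.one_le hG'.ll.llc1 hg
  have hjw : WQS j := ⟨fun T => ⟨T, fun x y z h => by rwa [hj.dist_eq, hj.dist_eq]⟩,
    fun δ hδ => ⟨δ, hδ, fun x y z h => by rwa [hj.dist_eq, hj.dist_eq]⟩⟩
  obtain ⟨L, c, c', hc0, hL⟩ := exists_lift M
  refine ⟨L ∘ g ∘ j, (hw.comp hjw).bilip hc0 fun x y => hL _ _ (hM _) (hM _), fun x y h => ?_⟩
  have h1 := (hL _ _ (hM (j x)) (hM (j y))).1
  rw [show L (g (j x)) = L (g (j y)) from h, dist_self] at h1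
  have h2 : dist (g (j x)) (g (j y)) ≤ 0 := by
    by_contra h3
    exact absurd h1 (not_le.2 (mul_pos hc0 (not_le.1 h3)))
  exact hj.injective (hw.injective hn (dist_le_zero.1 h2))

theorem phase3 {Z Y : Type} [MetricSpace Z] [CompactSpace Z] [Nontrivial Z] [MetricSpace Y]
    {ι : Z → Pl} (hc : Continuous ι) (hi : Function.Injective ι) {C : ℝ} (hG : LL Z C)
    (F : Z ≃ₜ Y) {K α β C₁ p : ℝ} (hK : 0 < K) (hα : 0 < α) (hβ : 0 < β) (hp : 0 < p)
    (hp' : p < 2) (hP : Pack Y C₁ p)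
    (hF : ∀ x y z : Z, z ≠ x → dist (F x) (F y) ≤
      K * ((dist x y / dist x z) ^ α + (dist x y / dist x z) ^ β) * dist (F x) (F z)) :
    ∃ f : Z → S2, WQS f ∧ Function.Injective f := by
  have : CompactSpace Y := F.compactSpace
  have : Nontrivial Y := F.injective.nontrivial
  have hFw : WQS F := wqs_of_gauge hK hα hβ hF
  obtain ⟨C', hC'⟩ := hG.map F hFw
  have e : (fun _ : Empty => F '' (∅ : Set Z)) = fun _ : Empty => (∅ : Set Y) :=
    funext fun j => j.elim
  rw [e] at hC'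
  have hGeo : Geo Y (max C' C₁) p :=
    ⟨hC'.mono (le_max_left _ _), hp, hp', hP.mono (le_max_right _ _)⟩
  obtain ⟨g, hg, hgi⟩ := exists_wqs (hc.comp F.symm.continuous) (hi.comp F.symm.injective) hGeo
  exact ⟨g ∘ F, hg.comp hFw, hgi.comp F.injective⟩

/-- From the weak form to the form of the statement. -/
theorem qs_of_wqs {Z : Type} [MetricSpace Z] [CompactSpace Z] {f : Z → S2} (hw : WQS f)
    (hinj : Function.Injective f) : ∃ η : ℝ≥0 ≃ₜ ℝ≥0,
      Topology.IsEmbedding f ∧ KKC.IsQS η f ∧ ∀ x y z : Z, z ≠ x →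
        InnerProductGeometry.angle (f x).1 (f y).1 / InnerProductGeometry.angle (f x).1 (f z).1 ≤
          η (nndist x y / nndist x z) := by
  obtain ⟨η, hη⟩ := hw.exists_eta two_pos
  have hpos : ∀ x z, z ≠ x → 0 < dist (f x) (f z) := fun x z h =>
    dist_pos.2 fun e => h (hinj e).symm
  refine ⟨η, (hw.continuous.isClosedEmbedding hinj).isEmbedding, fun x y z h => ?_,
    fun x y z h => ?_⟩
  · rw [← NNReal.coe_le_coe, NNReal.coe_div, coe_nndist, coe_nndist, div_le_iff₀ (hpos x z h)]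
    have := hη x y z h
    have h0 : 0 ≤ dist (f x) (f y) := dist_nonneg
    linarith
  · have h1 := (angle_le (f x) (f y)).2
    have h2 := (angle_le (f x) (f z)).1
    rw [div_le_iff₀ ((hpos x z h).trans_le h2)]
    exact h1.trans ((hη x y z h).trans (mul_le_mul_of_nonneg_left h2 (NNReal.coe_nonneg _)))

end KP3
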