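import Pool.Agent.Lib.MP_e1e491_gt.P3.K33

/-! Counting holes. -/

namespace KP3

open Set Metric KP2

variable {S : Type} [MetricSpace S] [CompactSpace S] {D : Em S}

theorem cnt_three {C t : ℝ} (hL : LL S C) (ht : 0 < t) {x : S} {O : Set Pl} (hO : D.Hol O)
    (hB : D.Big (t / 2) O) (hx : ∃ y ∈ D.P O, dist x y ≤ t) :
    ∃ y : Fin 3 → S, (∀ j, y j ∈ D.P O ∧ y j ∈ closedBall x (2 * t)) ∧
      ∀ j j', j ≠ j' → t / 8 ≤ dist (y j) (y j') := by
  obtain ⟨y0, hy0, hxy⟩ := hx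
  obtain ⟨u, hu, v, hv, huv⟩ := hB
  have hw : ∃ w ∈ D.P O, t / 4 ≤ dist y0 w := by
    by_contra hcon
    push Not at hcon
    have h1 := hcon u hu
    have h2 := hcon v hv
    have h3 := dist_triangle_left u v y0
    linarith
  obtain ⟨w, hw, hw2⟩ := hw
  have hiv := (hO.P_conn hL.conn).intermediate_value hy0 hw (f := fun z => dist y0 z)
    (continuous_const.dist continuous_id).continuousOn
  obtain ⟨y1, hy1, e1⟩ := hiv (show t / 8 ∈ Icc (dist y0 y0) (dist y0 w) from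
    ⟨by rw [dist_self]; linarith, by linarith⟩)
  obtain ⟨y2, hy2, e2⟩ := hiv (show t / 4 ∈ Icc (dist y0 y0) (dist y0 w) from
    ⟨by rw [dist_self]; linarith, hw2⟩)
  have e1 : dist y0 y1 = t / 8 := e1
  have e2 : dist y0 y2 = t / 4 := e2
  have e3 : t / 8 ≤ dist y1 y2 := by linarith [dist_triangle y0 y1 y2]
  have b0 : y0 ∈ closedBall x (2 * t) := by rw [mem_closedBall']; linarith
  have b1 : y1 ∈ closedBall x (2 * t) := by rw [mem_closedBall']; linarith [dist_triangle x y0 y1]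
  have b2 : y2 ∈ closedBall x (2 * t) := by rw [mem_closedBall']; linarith [dist_triangle x y0 y2]
  refine ⟨![y0, y1, y2], fun j => ?_, fun j j' hj => ?_⟩
  · fin_cases j
    exacts [⟨hy0, b0⟩, ⟨hy1, b1⟩, ⟨hy2, b2⟩]
  · have f1 : t / 8 ≤ dist y0 y1 := e1.ge
    have f2 : t / 8 ≤ dist y0 y2 := by linarith
    fin_cases j <;> fin_cases j'
    exacts [absurd rfl hj, f1, f2, dist_comm y0 y1 ▸ f1, absurd rfl hj, e3,
      dist_comm y0 y2 ▸ f2, dist_comm y1 y2 ▸ e3, absurd rfl hj]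

theorem exists_cnt {C p : ℝ} (hG : Geo S C p) : ∃ N : ℕ, ∀ (x : S) (t : ℝ), 0 < t →
    ∀ F : Finset (Set Pl), (∀ O ∈ F, D.Hol O ∧ D.Big (t / 2) O ∧ ∃ y ∈ D.P O, dist x y ≤ t) →
      F.card ≤ N := by
  classical
  have hC := hG.one_le
  refine ⟨⌈C * (130 * C) ^ p⌉₊ ^ 3 * 2, fun x t ht F hF => ?_⟩
  by_contra hcon
  rw [not_le] at hcon
  have hη : 0 < t / (65 * C) := by positivity
  have hη2 : 65 * C * (t / (65 * C)) = t := by field_simp
  obtain ⟨T, hT1, hT2, hT3⟩ := exists_net (closedBall x (2 * t)) hη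
  have hcard : T.card ≤ ⌈C * (130 * C) ^ p⌉₊ := by
    have h1 := hG.pack _ (2 * t) hη (by nlinarith) x T hT2 fun z hz => hT1 hz
    have h2 : 2 * t / (t / (65 * C)) = 130 * C := by
      field_simp
      norm_num
    rw [h2] at h1
    exact_mod_cast h1.trans (Nat.le_ceil _)
  have key : ∀ O ∈ F, ∃ y g : Fin 3 → S, (∀ j, y j ∈ D.P O) ∧
      (∀ j j', j ≠ j' → t / 8 ≤ dist (y j) (y j')) ∧
      ∀ j, g j ∈ T ∧ dist (g j) (y j) < t / (65 * C) := by
    intro O hO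
    obtain ⟨y, hy1, hy2⟩ := cnt_three hG.ll ht (hF O hO).1 (hF O hO).2.1 (hF O hO).2.2
    choose g hg using fun j => hT3 (y j) (hy1 j).2
    exact ⟨y, g, fun j => (hy1 j).1, hy2, hg⟩
  have : Nonempty S := ⟨x⟩
  choose! y g hy1 hy2 hg using key
  have hmaps : ∀ O ∈ F, g O ∈ Fintype.piFinset fun _ : Fin 3 => T := fun O hO =>
    Fintype.mem_piFinset.2 fun j => (hg O hO j).1
  have hlt : (Fintype.piFinset fun _ : Fin 3 => T).card * 2 < F.card := by
    rw [Fintype.card_piFinset_const]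
    exact lt_of_le_of_lt (Nat.mul_le_mul_right 2 (Nat.pow_le_pow_left hcard 3)) hcon
  obtain ⟨c, -, hc⟩ := Finset.exists_lt_card_fiber_of_mul_lt_card_of_maps_to hmaps hlt
  obtain ⟨O0, O1, O2, m0, m1, m2, n01, n02, n12⟩ := Finset.two_lt_card_iff.1 hc
  have hm : ∀ i : Fin 3, ![O0, O1, O2] i ∈ F ∧ g (![O0, O1, O2] i) = c := by
    intro i
    fin_cases i
    exacts [Finset.mem_filter.1 m0, Finset.mem_filter.1 m1, Finset.mem_filter.1 m2]
  have hi : Function.Injective ![O0, O1, O2] := by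
    intro i j hij
    fin_cases i <;> fin_cases j
    exacts [rfl, absurd hij n01, absurd hij n02, absurd hij.symm n01, rfl, absurd hij n12,
      absurd hij.symm n02, absurd hij.symm n12, rfl]
  refine k33 (D := D) (η := 2 * (t / (65 * C))) hG.ll (by positivity) ![O0, O1, O2]
    (fun i => (hF _ (hm i).1).1) hi (fun i => y (![O0, O1, O2] i))
    (fun i j => hy1 _ (hm i).1 j) (fun i j => ?_) fun j j' hj => ?_
  · have h1 := (hg _ (hm 0).1 j).2
    have h2 := (hg _ (hm i).1 j).2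
    rw [(hm 0).2] at h1
    rw [(hm i).2] at h2
    linarith [dist_triangle_left (y (![O0, O1, O2] 0) j) (y (![O0, O1, O2] i) j) (c j)]
  · have h1 := hy2 _ (hm 0).1 j j' hj
    linarith

theorem big_finite {C p r : ℝ} (hG : Geo S C p) (hr : 0 < r) :
    {O | D.Hol O ∧ D.Big r O}.Finite := by
  obtain ⟨N, hN⟩ := exists_cnt (D := D) hG
  obtain ⟨T, -, -, hT⟩ := exists_net (univ : Set S) hr
  have h1 : ∀ c : S, {O | D.Hol O ∧ D.Big (2 * r / 2) O ∧
      ∃ y ∈ D.P O, dist c y ≤ 2 * r}.Finite := by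
    intro c
    by_contra hinf
    obtain ⟨F, hF, hcard⟩ := Set.Infinite.exists_subset_card_eq hinf (N + 1)
    have := hN c (2 * r) (by positivity) F fun O hO => hF hO
    omega
  refine (T.finite_toSet.biUnion fun c _ => h1 c).subset ?_
  rintro O ⟨hO, hB⟩
  obtain ⟨u, hu, hv⟩ := id hB
  obtain ⟨c, hc, hcu⟩ := hT u (mem_univ u)
  refine mem_biUnion hc ⟨hO, ?_, u, hu, by linarith⟩
  rwa [mul_div_cancel_left₀ r two_ne_zero]

end KP3
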