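import Pool.Agent.Lib.MP_e1e491_gt.P3.Hole

/-! The cores of a hole and the far part of the space. -/

namespace KP3

open Set Metric KP2

/-- A closed connected set that contains the points far from `ξ` and no point near `ξ`. -/
theorem LL.exists_far_set {S : Type} [MetricSpace S] {C : ℝ} (h : LL S C) (ξ : S) {ρ : ℝ}
    (hρ : 0 < ρ) : ∃ A : Set S, IsClosed A ∧ IsPreconnected A ∧
      (∀ x, C * ρ ≤ dist ξ x → x ∈ A) ∧ ∀ x ∈ A, ρ ≤ dist ξ x := by
  by_cases h0 : ∃ y, C * ρ ≤ dist ξ y
  swap
  · exact ⟨∅, isClosed_empty, isPreconnected_empty, fun x hx => h0 ⟨x, hx⟩, fun _ hx => hx.elim⟩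
  obtain ⟨y₀, h0⟩ := h0
  choose E h1 h2 h3 h4 using h.llc2 ξ y₀
  refine ⟨closure (⋃ y ∈ {y | C * ρ ≤ dist ξ y}, E y), isClosed_closure,
    (isPreconnected_of_forall y₀ fun w hw => ?_).closure,
    fun x hx => subset_closure (mem_biUnion hx (h3 x)), closure_minimal (t := {x | ρ ≤ dist ξ x})
      (iUnion₂_subset fun y hy w hw => ?_) (isClosed_le continuous_const (by fun_prop))⟩
  · obtain ⟨y, hy, hw⟩ := mem_iUnion₂.1 hw
    exact ⟨E y, subset_biUnion_of_mem (u := E) hy, h2 y, hw, h1 y⟩
  · exact le_of_mul_le_mul_left ((le_min h0 hy).trans (h4 y w hw)) (one_pos.trans_le h.one_le)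

namespace Em

variable {S : Type} [MetricSpace S] [CompactSpace S] {D : Em S} {O : Set Pl} {c : Pl}
  {ε ε' : ℝ}

theorem isOpen_core (D : Em S) (c : Pl) (ε : ℝ) : IsOpen (D.core c ε) := by
  exact (isOpen_lt continuous_const D.continuous_δ).connectedComponentIn

theorem core_conn (D : Em S) (c : Pl) (ε : ℝ) : IsPreconnected (D.core c ε) := by
  exact isPreconnected_connectedComponentIn

theorem lt_of_mem_core {z : Pl} (h : z ∈ D.core c ε) : ε < D.δ z := by
  exact connectedComponentIn_subset {z | ε < D.δ z} c h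

theorem core_mono (h : ε ≤ ε') : D.core c ε' ⊆ D.core c ε := by
  exact connectedComponentIn_mono c fun _ hz => h.trans_lt hz

theorem closure_core (h : ε < ε') : closure (D.core c ε') ⊆ D.core c ε := by
  rcases (D.core c ε').eq_empty_or_nonempty with e | e
  · rw [e, closure_empty]
    exact empty_subset _
  refine (D.core_conn c ε').closure.subset_connectedComponentIn
    (subset_closure (mem_connectedComponentIn (connectedComponentIn_nonempty_iff.1 e))) ?_
  exact (closure_minimal (t := {z | ε' ≤ D.δ z}) (fun _ hz => (lt_of_mem_core hz).le)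
    (isClosed_le continuous_const D.continuous_δ)).trans fun _ hz => h.trans_le hz

theorem core_sub (hO : D.Hol O) (hc : c ∈ O) (h : 0 ≤ ε) : D.core c ε ⊆ O := by
  intro z hz
  exact hO.sub_of_conn (D.core_conn c ε)
    (fun x hx => D.δ_pos_iff.1 (h.trans_lt (lt_of_mem_core hx)) ⟨x, rfl⟩) hc
    (mem_connectedComponentIn (connectedComponentIn_nonempty_iff.1 ⟨z, hz⟩)) hz

theorem up_core (D : Em S) (c : Pl) (ε : ℝ) : D.Up (D.core c ε) := by
  intro z x w hz hw hκ
  have h1 := lt_of_mem_core hκ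
  rw [core, connectedComponentIn_eq hκ]
  refine (convex_segment z w).isPreconnected.subset_connectedComponentIn
    (right_mem_segment ℝ z w) (fun v hv => h1.trans_le ?_) (left_mem_segment ℝ z w)
  have hv' := (convex_segment z (D.ι x)).segment_subset (left_mem_segment ℝ _ _) hw hv
  have a1 : dist w (D.ι x) = D.δ w := (hz.seg hw).1
  have a2 : dist v (D.ι x) = D.δ v := (hz.seg hv').1
  linarith [dist_add_dist_of_mem_segment hw, dist_add_dist_of_mem_segment hv',
    dist_add_dist_of_mem_segment hv, dist_nonneg (x := v) (y := w)]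

theorem exists_core (hO : D.Hol O) (hc : c ∈ O) {ω : ℝ} (hω : 0 < ω) :
    ∃ ε : ℝ, 0 < ε ∧ ∀ z ∈ O, ω ≤ D.δ z → z ∈ D.core c ε := by
  have hK : IsCompact (closure O ∩ {z | ω ≤ D.δ z}) :=
    (isCompact_Icc.of_isClosed_subset isClosed_closure
      (closure_minimal hO.sub isClosed_Icc)).inter_right
      (isClosed_le continuous_const D.continuous_δ)
  refine (hK.elim_directed_cover (fun n : ℕ => D.core c (1 / (n + 1)))
    (fun n => D.isOpen_core c _) (fun z hz => ?_) (Monotone.directed_le fun m n h =>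
      core_mono (Nat.one_div_le_one_div h))).elim fun n hn =>
    ⟨1 / (n + 1), Nat.one_div_pos_of_nat, fun z hz h => hn ⟨subset_closure hz, h⟩⟩
  have hz' : z ∈ O := (hO.closure_sub hz.1).resolve_right (D.δ_pos_iff.1 (hω.trans_le hz.2))
  obtain ⟨γ, hγ⟩ := (hO.isOpen.isConnected_iff_isPathConnected.1 hO.isConnected).joinedIn c hc z hz'
  obtain ⟨_, ⟨t, rfl⟩, ht⟩ := (_root_.isCompact_range γ.continuous).exists_isMinOn
    (Set.range_nonempty γ) D.continuous_δ.continuousOn
  obtain ⟨n, hn⟩ := exists_nat_one_div_lt (D.δ_pos_iff.2 fun ⟨x, hx⟩ => hO.not_mem x (hx ▸ hγ t))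
  exact mem_iUnion.2 ⟨n, (isPreconnected_range γ.continuous).subset_connectedComponentIn
    γ.source_mem_range (fun v hv => hn.trans_le (ht hv)) γ.target_mem_range⟩

end Em

end KP3
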