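import Pool.Agent.Lib.MP_e1e491_gt.P2.Main

/-! Definitions for the embedding of a planar continuum of dimension less than two. -/

namespace KP3

open Set Metric KP2

noncomputable section

/-- Linear local connectivity. -/
abbrev LL (S : Type) [MetricSpace S] (C : ℝ) : Prop := GeoP (fun _ : Empty => (∅ : Set S)) C

/-- All metric hypotheses. -/
structure Geo (S : Type) [MetricSpace S] (C p : ℝ) : Prop where
  ll : LL S C
  p_pos : 0 < p
  p_lt : p < 2
  pack : Pack S C p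

theorem Geo.one_le {S : Type} [MetricSpace S] {C p : ℝ} (h : Geo S C p) : 1 ≤ C := h.ll.one_le

/-- `S` sits in the unit square and contains its boundary. -/
structure Em (S : Type) [TopologicalSpace S] where
  ι : S → Pl
  cont : Continuous ι
  inj : Function.Injective ι
  mem_QQ : ∀ x, ι x ∈ QQ
  mem_range_of_side : ∀ {z : Pl}, z ∈ QQ → ∀ {i b : Bool}, z i = bv b → z ∈ range ι

namespace Em

variable {S : Type} [MetricSpace S] (D : Em S)

/-- `O` is a bounded component of the complement. -/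
def Hol (O : Set Pl) : Prop :=
  ∃ z ∈ QQ, z ∉ range D.ι ∧ O = connectedComponentIn (range D.ι)ᶜ z

/-- The boundary of a hole. -/
def P (O : Set Pl) : Set S := D.ι ⁻¹' closure O

/-- The hole is big at scale `r`. -/
def Big (r : ℝ) (O : Set Pl) : Prop := ∃ x ∈ D.P O, ∃ y ∈ D.P O, r < dist x y

/-- The distance from the image of `S`. -/
def δ (z : Pl) : ℝ := infDist z (range D.ι)

/-- `x` is a nearest point for `z`. -/
def Ft (z : Pl) (x : S) : Prop := dist z (D.ι x) = D.δ z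

/-- The part of a hole that is joined to `c` at distance more than `ε` from the image of `S`. -/
def core (c : Pl) (ε : ℝ) : Set Pl := connectedComponentIn {z | ε < D.δ z} c

/-- Points with close images are close. -/
def Om (r ω : ℝ) : Prop := ∀ x x', dist (D.ι x) (D.ι x') ≤ 3 * ω → dist x x' ≤ r

/-- A point is in `κ` if a point between it and a nearest point is in `κ`. -/
def Up (κ : Set Pl) : Prop :=
  ∀ z x w, D.Ft z x → w ∈ segment ℝ z (D.ι x) → w ∈ κ → z ∈ κ

end Em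

open Classical in
/-- A cover of the square by continua with locations and sizes. -/
structure Sh {S : Type} [MetricSpace S] (D : Em S) (I : Type) [Fintype I] (C r : ℝ) where
  U : I → Set Pl
  l : I → S
  s : I → ℝ
  cpt : ∀ i, IsCompact (U i)
  con : ∀ i, IsPreconnected (U i)
  sub : ∀ i, U i ⊆ QQ
  cover : ∀ z ∈ QQ, ∃ i, z ∈ U i
  le_s : ∀ i, r ≤ s i
  s_le : ∀ i, s i ≤ C
  c1 : ∀ i j, (U i ∩ U j).Nonempty → s i ≤ C * s j ∧ dist (l i) (l j) ≤ C * s j
  c2 : ∀ (x : S) (t : ℝ), 0 < t →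
    ((Finset.univ.filter fun i => t ≤ s i ∧ s i ≤ 2 * t ∧ dist x (l i) ≤ t).card : ℝ) ≤ C
  c3 : ∀ ξ i, D.ι ξ ∈ U i → s i ≤ C * r ∧ dist ξ (l i) ≤ C * r

open Classical in
/-- The graph of blobs at scale `r`. -/
structure Bl {S : Type} [MetricSpace S] (D : Em S) (V : Type) [Fintype V] (C r : ℝ) where
  G : SimpleGraph V
  side : Bool → Bool → Set V
  l : V → S
  s : V → ℝ
  β : S → V
  hc : HC G side
  conn : Cn G univ
  le_s : ∀ v, r ≤ s v
  s_le : ∀ v, s v ≤ C
  adj : ∀ v w, G.Adj v w → s v ≤ C * s w ∧ dist (l v) (l w) ≤ C * s w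
  sum : ∀ (x : S) (R : ℝ),
    ∑ v ∈ Finset.univ.filter (fun v => dist x (l v) + s v ≤ R), s v ^ 2 ≤ C * R ^ 2
  shadow : ∀ E : Set S, IsPreconnected E → ∃ W : Set V, Cn G W ∧ (∀ x ∈ E, β x ∈ W) ∧
    ∀ v ∈ W, ∃ x ∈ E, s v ≤ C * r ∧ dist x (l v) ≤ C * r
  side_β : ∀ x i b, D.ι x i = bv b → β x ∈ side i b
  side_near : ∀ i b, ∀ v ∈ side i b, ∃ x, D.ι x i = bv b ∧ dist x (l v) ≤ C * r

/-- First half of linear local connectivity for a subset. -/
def L1 {F : Type} [MetricSpace F] (A : Set F) (C : ℝ) : Prop :=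
  ∀ x ∈ A, ∀ y ∈ A, ∃ E ⊆ A, IsPreconnected E ∧ x ∈ E ∧ y ∈ E ∧ ∀ w ∈ E, dist x w ≤ C * dist x y

/-- Second half of linear local connectivity for a subset. -/
def L2 {F : Type} [MetricSpace F] (A : Set F) (C : ℝ) : Prop :=
  ∀ x ∈ A, ∀ y ∈ A, ∀ z ∈ A, ∃ E ⊆ A, IsPreconnected E ∧ y ∈ E ∧ z ∈ E ∧
    ∀ w ∈ E, min (dist x y) (dist x z) ≤ C * dist x w

/-- Packing bound for a subset. -/
def Pk {F : Type} [MetricSpace F] (A : Set F) (C p : ℝ) : Prop :=
  ∀ r R : ℝ, 0 < r → r ≤ R → ∀ ξ ∈ A, ∀ T : Finset F, (T : Set F) ⊆ A → Sepd r T →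
    (∀ z ∈ T, dist z ξ ≤ R) → (T.card : ℝ) ≤ C * (R / r) ^ p

/-- The boundary of the unit square. -/
def Fr : Set Pl := sphere (fun _ => 1 / 2) (1 / 2)

end

end KP3
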