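import Pool.Agent.Lib.MP_e1e491_gt.P3.EmB

/-! The height of the rectangle is bounded above and below. -/

namespace KP3

open Set Metric KP2
open scoped Classical

variable {S : Type} [MetricSpace S] [CompactSpace S] {D : Em S}

omit [CompactSpace S] in
theorem ht_cross {C d r : ℝ} (hd : 0 < d)
    (hgap : ∀ (i : Bool) (x y : S), D.ι x i = bv false → D.ι y i = bv true → d ≤ dist x y)
    {V : Type} [Fintype V] (B : Bl D V C r) (hr : 0 < r) (hC : 1 ≤ C) (hr' : C * r ≤ d / 4)
    (j : Bool) (A : Set V) (hA : Cr B.G B.side j A) :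
    1 ≤ wt (fun v => 2 * C / d * B.s v) A := by
  obtain ⟨a, ha, b, hb, hcon⟩ := hA
  obtain ⟨x, hx, hxa⟩ := B.side_near j false a ha
  obtain ⟨y, hy, hyb⟩ := B.side_near j true b hb
  set F : Set S := {x | D.ι x j = bv false} with hF
  have hFne : F.Nonempty := ⟨x, hx⟩
  have hs : ∀ v, 0 ≤ B.s v := fun v => hr.le.trans (B.le_s v)
  have hpos : 0 < 2 / d := by positivity
  have h1 := hcon.abs_sub_le (ψ := fun v => 2 / d * infDist (B.l v) F)
    (m := fun v => 2 * C / d * B.s v)
    (fun v => mul_nonneg (by positivity) (hs v)) (fun v w hvw => by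
      have h2 := (B.adj v w hvw).2
      have h3 : |infDist (B.l v) F - infDist (B.l w) F| ≤ dist (B.l v) (B.l w) := by
        rw [abs_le]
        constructor
        · have := infDist_le_infDist_add_dist (x := B.l w) (y := B.l v) (s := F)
          rw [dist_comm] at this
          linarith
        · have := infDist_le_infDist_add_dist (x := B.l v) (y := B.l w) (s := F)
          linarith
      rw [← mul_sub, abs_mul, abs_of_pos hpos]
      calc 2 / d * |infDist (B.l v) F - infDist (B.l w) F| ≤ 2 / d * (C * B.s w) :=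
            mul_le_mul_of_nonneg_left (h3.trans h2) hpos.le
        _ = 2 * C / d * B.s w := by ring)
  have ha' : infDist (B.l a) F ≤ d / 4 := by
    have := infDist_le_dist_of_mem (x := B.l a) (show x ∈ F from hx)
    rw [dist_comm] at this
    linarith
  have hb' : 3 * d / 4 ≤ infDist (B.l b) F := by
    rw [le_infDist hFne]
    intro z hz
    have h4 := hgap j z y hz hy
    have h5 := dist_triangle z (B.l b) y
    rw [dist_comm z (B.l b), dist_comm (B.l b) y] at h5
    linarith
  refine le_trans ?_ h1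
  rw [abs_sub_comm]
  refine le_trans ?_ (le_abs_self _)
  rw [← mul_sub]
  calc (1 : ℝ) = 2 / d * (d / 2) := by field_simp
    _ ≤ 2 / d * (infDist (B.l b) F - infDist (B.l a) F) :=
      mul_le_mul_of_nonneg_left (by linarith) hpos.le

theorem exists_ht {C : ℝ} (hC : 1 ≤ C) : ∃ K r₀ : ℝ, 1 ≤ K ∧ 0 < r₀ ∧
    ∀ (V : Type) [Fintype V] (r : ℝ) (B : Bl D V C r) (m : V → ℝ) (X : Bool → V → ℝ)
      (H : Bool → ℝ), Til B.G B.side m X H → 0 < r → r ≤ r₀ → ∀ i, H i ≤ K ∧ 1 ≤ K * H i := by
  obtain ⟨d, hd, hgap⟩ := D.exists_gap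
  obtain ⟨R, hR, hdiam⟩ := exists_diam S
  obtain ⟨x₀, -⟩ := D.exists_corner (fun _ => false)
  have hC0 : 0 < C := by linarith
  refine ⟨max 1 ((2 * C / d) ^ 2 * (C * (R + C) ^ 2)), d / (4 * C), le_max_left _ _,
    by positivity, ?_⟩
  intro V _ r B m X H T hr hr0
  set K := max 1 ((2 * C / d) ^ 2 * (C * (R + C) ^ 2)) with hK
  have hr' : C * r ≤ d / 4 := by
    calc C * r ≤ C * (d / (4 * C)) := mul_le_mul_of_nonneg_left hr0 hC0.le
      _ = d / 4 := by field_simp
  have hs : ∀ v, 0 ≤ B.s v := fun v => hr.le.trans (B.le_s v)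
  have hsum : ∑ v, (2 * C / d * B.s v) ^ 2 ≤ K := by
    have h1 := B.sum x₀ (R + C)
    rw [Finset.filter_true_of_mem (fun v _ => add_le_add (hdiam x₀ (B.l v)) (B.s_le v))] at h1
    refine le_trans ?_ (le_max_right _ _)
    simp only [mul_pow]
    rw [← Finset.mul_sum]
    exact mul_le_mul_of_nonneg_left h1 (by positivity)
  have hH : ∀ i, H i ≤ K * H (!i) := fun i => by
    have h1 := T.H_le (W := fun v => 2 * C / d * B.s v)
      (fun v => mul_nonneg (by positivity) (hs v)) i
      (fun A hA => ht_cross hd hgap B hr hC hr' (!i) A hA)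
    exact h1.trans (mul_le_mul_of_nonneg_right hsum (T.H_pos _).le)
  have h0 : H false = 1 := T.H_false
  have hK1 : 1 ≤ K := le_max_left _ _
  intro i
  cases i
  · rw [h0, mul_one]
    exact ⟨hK1, hK1⟩
  · have h1 := hH true
    have h2 := hH false
    simp only [Bool.not_true, Bool.not_false] at h1 h2
    rw [h0, mul_one] at h1
    rw [h0] at h2
    exact ⟨h1, h2⟩

end KP3
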