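import Pool.Agent.Lib.MP_e1e491_gt.P3.Defs

/-! Elementary geometry of the square and its holes. -/

namespace KP3

open Set Metric KP2
open scoped Classical

namespace Em

variable {S : Type} [MetricSpace S] (D : Em S)

theorem exists_corner (b : Bool → Bool) : ∃ x, ∀ i, D.ι x i = bv (b i) := by
  have h : (fun i => bv (b i)) ∈ QQ := by
    constructor <;> intro i <;> cases h : b i <;> simp [bv, h]
  obtain ⟨x, hx⟩ := D.mem_range_of_side h (i := false) rfl
  exact ⟨x, congrFun hx⟩

theorem sqb_gap [CompactSpace S] : ∃ d : ℝ, 0 < d ∧ ∀ (i : Bool) (x y : S),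
    D.ι x i = bv false → D.ι y i = bv true → d ≤ dist x y := by
  obtain ⟨d, h0, h1⟩ := Metric.uniformContinuous_iff.1
    (CompactSpace.uniformContinuous_of_continuous D.cont) 1 one_pos
  refine ⟨d, h0, fun i x y hx hy => not_lt.1 fun h => ?_⟩
  have h2 := (dist_le_pi_dist (D.ι x) (D.ι y) i).trans_lt (h1 h)
  rw [hx, hy] at h2
  simp [bv] at h2

/-- One of the two corners of a side is far from `x`. -/
theorem exists_far [CompactSpace S] : ∃ c : ℝ, 0 < c ∧ c ≤ 1 ∧ ∀ (i b : Bool) (x z : S),
    ∃ q, D.ι q i = bv b ∧ c * dist x z ≤ dist x q := by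
  obtain ⟨d, h0, h1⟩ := D.sqb_gap
  obtain ⟨R, h2, h3⟩ := exists_diam S
  refine ⟨min 1 (d / (2 * R)), lt_min one_pos (by positivity), min_le_left _ _,
    fun i b x z => ?_⟩
  obtain ⟨q, hq⟩ := D.exists_corner fun k => if k = i then b else false
  obtain ⟨q', hq'⟩ := D.exists_corner fun k => if k = i then b else true
  have h4 := h1 (!i) q q' (by rw [hq, if_neg (Bool.not_ne_self i)])
    (by rw [hq', if_neg (Bool.not_ne_self i)])
  have h5 : min 1 (d / (2 * R)) * dist x z ≤ d / 2 :=
    (mul_le_mul (min_le_right _ _) (h3 x z) dist_nonneg (by positivity)).trans_eq (by field_simp)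
  have h6 := dist_triangle_left q q' x
  by_cases e : d / 2 ≤ dist x q
  · exact ⟨q, by rw [hq, if_pos rfl], h5.trans e⟩
  · exact ⟨q', by rw [hq', if_pos rfl], by linarith⟩

/-- Opposite sides are at positive distance. -/
theorem exists_gap [CompactSpace S] : ∃ d : ℝ, 0 < d ∧ ∀ (i : Bool) (x y : S),
    D.ι x i = bv false → D.ι y i = bv true → d ≤ dist x y := by
  exact D.sqb_gap

end Em

end KP3
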