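import Pool.Agent.Lib.MP_e1e491_gt.P3.Defs

/-! The boundary of the square and the normal position of the embedding. -/

namespace KP3

open Set Metric KP2

theorem fra_dist (z w : Pl) : dist z w = max |z false - w false| |z true - w true| := by
  refine le_antisymm ((dist_pi_le_iff (le_max_of_le_left (abs_nonneg _))).2 fun i => ?_)
    (max_le (dist_le_pi_dist z w false) (dist_le_pi_dist z w true))
  cases i
  · exact le_max_left _ _
  · exact le_max_right _ _

theorem mem_Fr {z : Pl} : z ∈ Fr ↔ z ∈ QQ ∧ ∃ i b, z i = bv b := by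
  rw [Fr, mem_sphere, fra_dist]
  constructor
  · intro h
    have h0 := abs_le.1 ((le_max_left _ _).trans h.le)
    have h1 := abs_le.1 ((le_max_right _ _).trans h.le)
    refine ⟨⟨fun i => ?_, fun i => ?_⟩, ?_⟩
    · cases i
      · change 0 ≤ z false
        linarith [h0.1]
      · change 0 ≤ z true
        linarith [h1.1]
    · cases i
      · change z false ≤ 1
        linarith [h0.2]
      · change z true ≤ 1
        linarith [h1.2]
    · have key : ∀ i, |z i - 1 / 2| = 1 / 2 → ∃ i b, z i = bv b := by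
        intro i hi
        rcases (abs_eq (by norm_num)).1 hi with e | e
        · exact ⟨i, true, by rw [bv, if_pos rfl]; linarith⟩
        · exact ⟨i, false, by rw [bv, if_neg (by simp)]; linarith⟩
      rcases max_choice |z false - 1 / 2| |z true - 1 / 2| with e | e
      · exact key false (e ▸ h)
      · exact key true (e ▸ h)
  · rintro ⟨⟨h0, h1⟩, i, b, e⟩
    have hle : ∀ j, |z j - 1 / 2| ≤ 1 / 2 := fun j => by
      have a0 : 0 ≤ z j := h0 j
      have a1 : z j ≤ 1 := h1 j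
      rw [abs_le]
      constructor <;> linarith
    have he : |z i - 1 / 2| = 1 / 2 := by
      rw [e]
      cases b <;> norm_num [bv, abs_of_pos]
    refine le_antisymm (max_le (hle _) (hle _)) ?_
    cases i
    · exact he.ge.trans (le_max_left _ _)
    · exact he.ge.trans (le_max_right _ _)

theorem isCompact_Fr : IsCompact Fr := by
  exact isCompact_sphere _ _

theorem conn_Fr : IsPreconnected Fr := by
  refine isPreconnected_sphere ?_ _ _
  rw [rank_fun']
  simp

/-- the centre of the square -/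
noncomputable def fra_c : Pl := fun _ => 1 / 2

/-- the radial projection to the boundary -/
noncomputable def fra_pr (w : Pl) : Pl := fra_c + (1 / (2 * ‖w - fra_c‖)) • (w - fra_c)

theorem fra_mem {x : Pl} : x ∈ Fr ↔ ‖x - fra_c‖ = 1 / 2 := by
  rw [← dist_eq_norm]
  rfl

theorem fra_diam {x y : Pl} (hx : x ∈ Fr) (hy : y ∈ Fr) : dist x y ≤ 1 := by
  have h1 : dist x fra_c = 1 / 2 := hx
  have h2 : dist y fra_c = 1 / 2 := hy
  linarith [dist_triangle_right x y fra_c]

theorem fra_pr_mem {w : Pl} (hw : w ≠ fra_c) : fra_pr w ∈ Fr := by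
  have hn : 0 < ‖w - fra_c‖ := norm_pos_iff.2 (sub_ne_zero.2 hw)
  rw [fra_mem, fra_pr, add_sub_cancel_left, norm_smul, Real.norm_eq_abs, abs_of_pos (by positivity)]
  field_simp

theorem fra_pr_self {w : Pl} (hw : w ∈ Fr) : fra_pr w = w := by
  rw [fra_pr, fra_mem.1 hw]
  norm_num

theorem fra_seg {x y : Pl} (hx : x ∈ Fr) (hy : y ∈ Fr) (hc : fra_c ∉ segment ℝ x y) :
    fra_pr '' segment ℝ x y ⊆ Fr ∧ IsPreconnected (fra_pr '' segment ℝ x y) ∧
      x ∈ fra_pr '' segment ℝ x y ∧ y ∈ fra_pr '' segment ℝ x y := by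
  refine ⟨?_, (convex_segment x y).isPreconnected.image _ ?_,
    ⟨x, left_mem_segment _ _ _, fra_pr_self hx⟩, ⟨y, right_mem_segment _ _ _, fra_pr_self hy⟩⟩
  · rintro _ ⟨w, hw, rfl⟩
    exact fra_pr_mem fun e => hc (e ▸ hw)
  · have h1 : ContinuousOn (fun w : Pl => 1 / (2 * ‖w - fra_c‖)) (segment ℝ x y) := by
      refine continuousOn_const.div (by fun_prop) fun w hw => ?_
      have : 0 < ‖w - fra_c‖ := norm_pos_iff.2 (sub_ne_zero.2 fun e => hc (e ▸ hw))
      positivity
    exact continuousOn_const.add (h1.smul (continuousOn_id.sub continuousOn_const))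

theorem fra_near {x w : Pl} (hx : x ∈ Fr) (hw : w ≠ fra_c) : dist x (fra_pr w) ≤ 2 * dist x w := by
  have hn : 0 < ‖w - fra_c‖ := norm_pos_iff.2 (sub_ne_zero.2 hw)
  have h1 : dist w (fra_pr w) = |‖w - fra_c‖ - 1 / 2| := by
    have e : w - fra_pr w = (1 - 1 / (2 * ‖w - fra_c‖)) • (w - fra_c) := by
      rw [fra_pr, sub_smul, one_smul]
      abel
    have e2 : ‖w - fra_c‖ - 1 / 2 = (1 - 1 / (2 * ‖w - fra_c‖)) * ‖w - fra_c‖ := by
      field_simp
    rw [dist_eq_norm, e, norm_smul, Real.norm_eq_abs, e2, abs_mul, abs_of_pos hn]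
  have h2 : |‖w - fra_c‖ - 1 / 2| ≤ dist x w := by
    rw [← fra_mem.1 hx, ← dist_eq_norm, ← dist_eq_norm, dist_comm x w]
    exact abs_dist_sub_le _ _ _
  linarith [dist_triangle x w (fra_pr w)]

theorem fra_est {u v e : Pl} {a b l : ℝ} (ha : 0 ≤ a) (hb : 0 ≤ b) (hl : 0 < l)
    (hu : ‖u‖ = 1 / 2) (hv : ‖v‖ = 1 / 2) (h : a • u = (b + l) • v + l • e) :
    ‖u - v‖ ≤ 4 * ‖e‖ := by
  have he := norm_nonneg e
  by_cases h4 : 1 / 4 ≤ ‖e‖
  · linarith [norm_sub_le u v]
  have n1 : ‖a • u‖ = a / 2 := by rw [norm_smul, Real.norm_eq_abs, abs_of_nonneg ha, hu]; ring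
  have n2 : ‖(b + l) • v‖ = (b + l) / 2 := by
    rw [norm_smul, Real.norm_eq_abs, abs_of_nonneg (by linarith), hv]; ring
  have n3 : ‖l • e‖ = l * ‖e‖ := by rw [norm_smul, Real.norm_eq_abs, abs_of_pos hl]
  have k1 : |a / 2 - (b + l) / 2| ≤ l * ‖e‖ := by
    rw [← n1, ← n2, ← n3]
    refine (abs_norm_sub_norm_le _ _).trans (le_of_eq ?_)
    rw [h, add_sub_cancel_left]
  have k2 : a * ‖u - v‖ ≤ 2 * (l * ‖e‖) := by
    have e1 : a • (u - v) = (2 * ((b + l) / 2 - a / 2)) • v + l • e := by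
      rw [smul_sub, h]
      module
    have e2 : ‖a • (u - v)‖ = a * ‖u - v‖ := by
      rw [norm_smul, Real.norm_eq_abs, abs_of_nonneg ha]
    have e3 : ‖(2 * ((b + l) / 2 - a / 2)) • v‖ = |a / 2 - (b + l) / 2| := by
      rw [norm_smul, Real.norm_eq_abs, abs_mul, hv, abs_sub_comm, abs_two]
      ring
    have := norm_add_le ((2 * ((b + l) / 2 - a / 2)) • v) (l • e)
    rw [← e1, e2, e3, n3] at this
    linarith
  have k3 : l / 2 ≤ a := by
    have := (abs_le.1 k1).1
    nlinarith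
  have k4 : l / 2 * ‖u - v‖ ≤ a * ‖u - v‖ := mul_le_mul_of_nonneg_right k3 (norm_nonneg _)
  refine le_of_mul_le_mul_left ?_ hl
  linarith

theorem fra_anti {x y : Pl} (hx : x ∈ Fr) (hy : y ∈ Fr) (hne : y ≠ x) :
    ∃ E ⊆ Fr, IsPreconnected E ∧ y ∈ E ∧ fra_c - (x - fra_c) ∈ E ∧
      ∀ w ∈ E, dist x y ≤ 4 * dist x w := by
  have hu := fra_mem.1 hy
  have hv := fra_mem.1 hx
  have hs : fra_c - (x - fra_c) ∈ Fr := by
    rw [fra_mem, sub_sub_cancel_left, norm_neg, hv]
  have hg : ∀ a b : ℝ, a + b = 1 →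
      a • y + b • (fra_c - (x - fra_c)) - fra_c = a • (y - fra_c) - b • (x - fra_c) := by
    intro a b hab
    have : b = 1 - a := by linarith
    rw [this]
    module
  have hc : fra_c ∉ segment ℝ y (fra_c - (x - fra_c)) := by
    rintro ⟨a, b, ha, hb, hab, e⟩
    have e1 := hg a b hab
    rw [e, sub_self, eq_comm, sub_eq_zero] at e1
    have e2 := congrArg norm e1
    rw [norm_smul, norm_smul, hu, hv, Real.norm_eq_abs, Real.norm_eq_abs, abs_of_nonneg ha,
      abs_of_nonneg hb] at e2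
    have e3 : b = a := by linarith
    have e4 : a ≠ 0 := by
      intro h
      linarith
    rw [e3] at e1
    exact hne (sub_left_injective (smul_right_injective _ e4 e1))
  obtain ⟨h1, h2, h3, h4⟩ := fra_seg hy hs hc
  refine ⟨_, h1, h2, h3, h4, ?_⟩
  rintro _ ⟨w, hw, rfl⟩
  have hn : 0 < ‖w - fra_c‖ := norm_pos_iff.2 (sub_ne_zero.2 fun e => hc (e ▸ hw))
  obtain ⟨a, b, ha, hb, hab, e⟩ := hw
  have e1 := hg a b hab
  rw [e] at e1
  have e2 : (2 * ‖w - fra_c‖) • (fra_pr w - fra_c) = w - fra_c := by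
    rw [fra_pr, add_sub_cancel_left, smul_smul, mul_one_div_cancel (by positivity), one_smul]
  have key := fra_est (e := fra_pr w - x) (l := 2 * ‖w - fra_c‖) ha hb (by positivity) hu hv (by
    rw [sub_eq_iff_eq_add.1 e1.symm]
    nth_rewrite 1 [← e2]
    module)
  rwa [sub_sub_sub_cancel_right, ← dist_eq_norm, ← dist_eq_norm, dist_comm y, dist_comm _ x] at key

theorem fra_line {α : Type} {r R : ℝ} (hr : 0 < r) (hrR : r ≤ R) (s : ℝ) (T : Finset α)
    (f : α → ℝ) (hR : ∀ z ∈ T, dist (f z) s ≤ R)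
    (hs : ∀ z ∈ T, ∀ w ∈ T, z ≠ w → r ≤ |f z - f w|) : (T.card : ℝ) ≤ 3 * (R / r) := by
  have h1 : 1 ≤ R / r := (one_le_div hr).2 hrR
  have hb : ∀ z ∈ T, 0 ≤ (f z - (s - R)) / r ∧ (f z - (s - R)) / r ≤ 2 * (R / r) := by
    intro z hz
    have := abs_le.1 (hR z hz)
    refine ⟨div_nonneg (by linarith [this.1]) hr.le, ?_⟩
    rw [← mul_div_assoc]
    exact div_le_div_of_nonneg_right (by linarith [this.2]) hr.le
  have h2 : T.card ≤ (Finset.range (⌊2 * (R / r)⌋₊ + 1)).card := by
    refine Finset.card_le_card_of_injOn (fun z => ⌊(f z - (s - R)) / r⌋₊) (fun z hz => ?_)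
      fun z hz w hw e => ?_
    · exact Finset.mem_coe.2 (Finset.mem_range.2 (Nat.lt_succ_of_le (Nat.floor_mono (hb z hz).2)))
    · by_contra hne
      have a1 := Nat.floor_le (hb z hz).1
      have a2 := Nat.lt_floor_add_one ((f z - (s - R)) / r)
      have a3 := Nat.floor_le (hb w hw).1
      have a4 := Nat.lt_floor_add_one ((f w - (s - R)) / r)
      have e' : (⌊(f z - (s - R)) / r⌋₊ : ℝ) = ⌊(f w - (s - R)) / r⌋₊ := congrArg Nat.cast e
      have a5 : |(f z - f w) / r| < 1 := by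
        have : (f z - f w) / r = (f z - (s - R)) / r - (f w - (s - R)) / r := by ring
        rw [this, abs_lt]
        constructor <;> linarith
      rw [abs_div, abs_of_pos hr, div_lt_one hr] at a5
      exact absurd (hs z hz w hw hne) (not_le.2 a5)
  rw [Finset.card_range] at h2
  have h3 : (T.card : ℝ) ≤ ⌊2 * (R / r)⌋₊ + 1 := by exact_mod_cast h2
  have h4 := Nat.floor_le (show 0 ≤ 2 * (R / r) by linarith)
  linarith

theorem fra_norm {S : Type} [TopologicalSpace S] [CompactSpace S] {f g : S → ℝ}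
    (hf : Continuous f) (hg : Continuous g) (hi : ∀ x y, f x = f y → g x = g y → x = y)
    {x0 y0 : S} (h0 : f x0 ≠ f y0) :
    ∃ (ι' : S → Pl) (a b : S), Continuous ι' ∧ Function.Injective ι' ∧
      (∀ x, 1 / 3 ≤ ι' x true ∧ ι' x true ≤ 2 / 3 ∧ 0 ≤ ι' x false ∧ ι' x false ≤ 1) ∧
      (∀ x, ι' x false = 0 ↔ x = a) ∧ ∀ x, ι' x false = 1 ↔ x = b := by
  obtain ⟨a, -, ha⟩ := isCompact_univ.exists_isMinOn ⟨x0, mem_univ _⟩ hf.continuousOn
  obtain ⟨b, -, hb⟩ := isCompact_univ.exists_isMaxOn ⟨x0, mem_univ _⟩ hf.continuousOn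
  obtain ⟨m, -, hm⟩ := isCompact_univ.exists_isMaxOn ⟨x0, mem_univ _⟩ hg.abs.continuousOn
  have ha' : ∀ x, f a ≤ f x := fun x => ha (mem_univ x)
  have hb' : ∀ x, f x ≤ f b := fun x => hb (mem_univ x)
  have hm' : ∀ x, |g x| ≤ |g m| := fun x => hm (mem_univ x)
  have hab : 0 < f b - f a := by
    by_contra h
    exact h0 (by linarith [ha' x0, ha' y0, hb' x0, hb' y0])
  obtain ⟨u, hu, u0, u1, ua, ub, ui⟩ : ∃ u : S → ℝ, Continuous u ∧ (∀ x, 0 ≤ u x) ∧
      (∀ x, u x ≤ 1) ∧ u a = 0 ∧ u b = 1 ∧ ∀ x y, u x = u y → f x = f y := by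
    refine ⟨fun x => (f x - f a) / (f b - f a), by fun_prop,
      fun x => div_nonneg (by linarith [ha' x]) hab.le,
      fun x => (div_le_one hab).2 (by linarith [hb' x]), by simp, div_self hab.ne', fun x y e => ?_⟩
    have := (div_left_inj' hab.ne').1 e
    linarith
  obtain ⟨v, hv, v0, v1, vi⟩ : ∃ v : S → ℝ, Continuous v ∧ (∀ x, 1 / 3 ≤ v x) ∧
      (∀ x, v x ≤ 2 / 3) ∧ ∀ x y, v x = v y → g x = g y := by
    have hR : 0 < 6 * (|g m| + 1) := by positivity
    refine ⟨fun x => 1 / 2 + g x / (6 * (|g m| + 1)), by fun_prop, fun x => ?_, fun x => ?_,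
      fun x y e => (div_left_inj' hR.ne').1 (add_left_cancel e)⟩
    · have : -(1 / 6) ≤ g x / (6 * (|g m| + 1)) := by
        rw [le_div_iff₀ hR]
        linarith [(abs_le.1 (hm' x)).1]
      linarith
    · have : g x / (6 * (|g m| + 1)) ≤ 1 / 6 := by
        rw [div_le_iff₀ hR]
        linarith [(abs_le.1 (hm' x)).2]
      linarith
  have hd : ∀ x y, |v x - v y| ≤ 1 / 3 := fun x y => by
    rw [abs_le]
    constructor <;> linarith [v0 x, v0 y, v1 x, v1 y]
  have hp : ∀ x, 0 < 1 - |v x - v a| - |v x - v b| := fun x => by linarith [hd x a, hd x b]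
  refine ⟨fun x k => if k then v x else |v x - v a| + u x * (1 - |v x - v a| - |v x - v b|),
    a, b, continuous_pi fun k => ?_, fun x y e => ?_, fun x => ?_, fun x => ?_, fun x => ?_⟩
  · cases k
    · simp only [Bool.false_eq_true, if_false]
      fun_prop
    · simp only [if_true]
      exact hv
  · have e1 : v x = v y := congrFun e true
    have e2 : |v x - v a| + u x * (1 - |v x - v a| - |v x - v b|) =
        |v y - v a| + u y * (1 - |v y - v a| - |v y - v b|) := congrFun e false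
    rw [e1] at e2
    exact hi x y (ui x y (mul_right_cancel₀ (hp y).ne' (add_left_cancel e2))) (vi x y e1)
  · refine ⟨v0 x, v1 x, ?_, ?_⟩
    · change 0 ≤ |v x - v a| + u x * (1 - |v x - v a| - |v x - v b|)
      exact add_nonneg (abs_nonneg _) (mul_nonneg (u0 x) (hp x).le)
    · change |v x - v a| + u x * (1 - |v x - v a| - |v x - v b|) ≤ 1
      have := mul_nonneg (sub_nonneg.2 (u1 x)) (hp x).le
      linarith [abs_nonneg (v x - v b)]
  · change |v x - v a| + u x * (1 - |v x - v a| - |v x - v b|) = 0 ↔ x = a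
    constructor
    · intro e
      have k1 := mul_nonneg (u0 x) (hp x).le
      have k2 := abs_nonneg (v x - v a)
      have k3 : |v x - v a| = 0 := by linarith
      have k4 : u x * (1 - |v x - v a| - |v x - v b|) = 0 := by linarith
      have k5 : u x = 0 := (mul_eq_zero.1 k4).resolve_right (hp x).ne'
      exact hi x a (ui x a (k5.trans ua.symm)) (vi x a (sub_eq_zero.1 (abs_eq_zero.1 k3)))
    · rintro rfl
      rw [ua, sub_self, abs_zero, zero_mul, add_zero]
  · change |v x - v a| + u x * (1 - |v x - v a| - |v x - v b|) = 1 ↔ x = b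
    constructor
    · intro e
      have k1 := mul_nonneg (sub_nonneg.2 (u1 x)) (hp x).le
      have k2 := abs_nonneg (v x - v b)
      have k3 : |v x - v b| = 0 := by linarith
      have k4 : (1 - u x) * (1 - |v x - v a| - |v x - v b|) = 0 := by linarith
      have k5 : 1 - u x = 0 := (mul_eq_zero.1 k4).resolve_right (hp x).ne'
      exact hi x b (ui x b (by linarith)) (vi x b (sub_eq_zero.1 (abs_eq_zero.1 k3)))
    · rintro rfl
      rw [ub, sub_self, abs_zero]
      ring

theorem l1_Fr : L1 Fr 4 := by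
  intro x hx y hy
  by_cases h : dist x y < 1 / 2
  · have hw : ∀ w ∈ segment ℝ x y, dist x w ≤ dist x y := fun w hw => by
      have := dist_add_dist_of_mem_segment hw
      linarith [dist_nonneg (x := w) (y := y)]
    have hc : fra_c ∉ segment ℝ x y := fun hc => by
      have h1 := hw _ hc
      have h2 : dist x fra_c = 1 / 2 := hx
      linarith
    obtain ⟨h1, h2, h3, h4⟩ := fra_seg hx hy hc
    refine ⟨_, h1, h2, h3, h4, ?_⟩
    rintro _ ⟨w, hw', rfl⟩
    have := fra_near hx (w := w) (fun e => hc (e ▸ hw'))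
    linarith [hw w hw', dist_nonneg (x := x) (y := y)]
  · refine ⟨Fr, Subset.rfl, conn_Fr, hx, hy, fun w hw => ?_⟩
    linarith [fra_diam hx hw]

theorem l2_Fr : L2 Fr 4 := by
  intro x hx y hy z hz
  by_cases hxy : y = x
  · refine ⟨Fr, Subset.rfl, conn_Fr, hy, hz, fun w _ => ?_⟩
    refine (min_le_left _ _).trans ?_
    rw [hxy, dist_self]
    positivity
  by_cases hxz : z = x
  · refine ⟨Fr, Subset.rfl, conn_Fr, hy, hz, fun w _ => ?_⟩
    refine (min_le_right _ _).trans ?_
    rw [hxz, dist_self]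
    positivity
  obtain ⟨E1, a1, a2, a3, a4, a5⟩ := fra_anti hx hy hxy
  obtain ⟨E2, b1, b2, b3, b4, b5⟩ := fra_anti hx hz hxz
  refine ⟨E1 ∪ E2, union_subset a1 b1, a2.union _ a4 b4 b2, Or.inl a3, Or.inr b3, ?_⟩
  rintro w (hw | hw)
  · exact (min_le_left _ _).trans (a5 w hw)
  · exact (min_le_right _ _).trans (b5 w hw)

theorem pk_Fr : Pk Fr 12 1 := by
  classical
  intro r R hr hrR ξ _ T hT hs hR
  have hside : ∀ q : Bool × Bool,
      ((T.filter fun z => z q.1 = bv q.2).card : ℝ) ≤ 3 * (R / r) := by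
    rintro ⟨i, b⟩
    refine fra_line hr hrR (ξ (!i)) _ (fun z => z (!i)) (fun z hz => ?_) fun z hz w hw hne => ?_
    · exact (dist_le_pi_dist z ξ (!i)).trans (hR z (Finset.mem_filter.1 hz).1)
    · obtain ⟨hz1, hz2⟩ := Finset.mem_filter.1 hz
      obtain ⟨hw1, hw2⟩ := Finset.mem_filter.1 hw
      have h1 := hs z hz1 w hw1 hne
      have h2 : z i = w i := hz2.trans hw2.symm
      rw [fra_dist] at h1
      cases i
      · rw [h2, sub_self, abs_zero, max_eq_right (abs_nonneg _)] at h1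
        exact h1
      · rw [h2, sub_self, abs_zero, max_eq_left (abs_nonneg _)] at h1
        exact h1
  have hsub : T ⊆ Finset.univ.biUnion fun q : Bool × Bool =>
      T.filter fun z => z q.1 = bv q.2 := by
    intro z hz
    obtain ⟨-, i, b, e⟩ := mem_Fr.1 (hT hz)
    exact Finset.mem_biUnion.2 ⟨(i, b), Finset.mem_univ _, Finset.mem_filter.2 ⟨hz, e⟩⟩
  have h1 := (Finset.card_le_card hsub).trans Finset.card_biUnion_le
  have h2 : (T.card : ℝ) ≤ ∑ q : Bool × Bool, ((T.filter fun z => z q.1 = bv q.2).card : ℝ) := by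
    exact_mod_cast h1
  have h3 := h2.trans (Finset.sum_le_sum fun q _ => hside q)
  rw [Finset.sum_const, Finset.card_univ, Fintype.card_prod, Fintype.card_bool, nsmul_eq_mul] at h3
  rw [Real.rpow_one]
  push_cast at h3
  linarith

/-- The image touches the boundary of the square in one point on the left and one on the right. -/
theorem exists_normal {S : Type} [TopologicalSpace S] [CompactSpace S] [Nontrivial S]
    {ι : S → Pl} (hc : Continuous ι) (hi : Function.Injective ι) :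
    ∃ (ι' : S → Pl) (a b : S), Continuous ι' ∧ Function.Injective ι' ∧
      (∀ x, 1 / 3 ≤ ι' x true ∧ ι' x true ≤ 2 / 3 ∧ 0 ≤ ι' x false ∧ ι' x false ≤ 1) ∧
      (∀ x, ι' x false = 0 ↔ x = a) ∧ ∀ x, ι' x false = 1 ↔ x = b := by
  obtain ⟨x, y, hxy⟩ := exists_pair_ne S
  obtain ⟨i, hi'⟩ := Function.ne_iff.1 (hi.ne hxy)
  refine fra_norm (f := fun x => ι x i) (g := fun x => ι x (!i))
    ((continuous_apply i).comp hc) ((continuous_apply _).comp hc) (fun x y h1 h2 => hi ?_) hi'
  funext j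
  cases i <;> cases j
  · exact h1
  · exact h2
  · exact h2
  · exact h1

end KP3
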