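import Pool.Agent.Lib.MP_e1e491_gt.P3.Main
import Pool.Agent.Lib.MP_e1e491_gt.CC.Main

/-! The connected case from its parts. -/

namespace KP3

open Set Metric KP2

theorem ll_of_ll {Z : Type} [MetricSpace Z] {lam : ℝ} (h : KCC.LL Z lam) : LL Z lam := by
  refine ⟨h.one_le, h.three, fun j => j.elim, fun x y z => ?_, fun j => j.elim⟩
  have h0 : 0 < lam := zero_lt_one.trans_le h.one_le
  rcases (le_min (dist_nonneg (x := x) (y := y)) (dist_nonneg (x := x) (y := z))).eq_or_lt with
    e | e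
  · obtain ⟨E, e1, e2, e3, -⟩ := h.three y z
    exact ⟨E, e1, e2, e3, fun w _ => e ▸ mul_nonneg h0.le dist_nonneg⟩
  · have he : lam * (min (dist x y) (dist x z) / lam) = min (dist x y) (dist x z) := by
      field_simp
    obtain ⟨E, e0, e1, e2, e3⟩ := KCC.joined_set (h.l2 x _ y z (div_pos e h0)
      (by rw [he, dist_comm y]; exact min_le_left _ _)
      (by rw [he, dist_comm z]; exact min_le_right _ _))
    refine ⟨E, e1, e2, e3, fun w hw => ?_⟩
    have h1 := e0 hw
    rw [mem_compl_iff, mem_closedBall, not_le, div_lt_iff₀' h0, dist_comm w] at h1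
    exact h1.le

/-- A proper subset of the sphere lies in the plane. -/
theorem exists_plane {Z : Type} [TopologicalSpace Z] {j : Z → S2} (hc : Continuous j)
    (hi : Function.Injective j) (hs : ¬ Function.Surjective j) :
    ∃ ι : Z → Pl, Continuous ι ∧ Function.Injective ι := by
  obtain ⟨y, hy⟩ := not_forall.1 hs
  obtain ⟨e⟩ := KKC.sph_compl_homeo y
  obtain ⟨e'⟩ := KCC.top_plane
  have hm : ∀ x, j x ∈ ({y}ᶜ : Set S2) := fun x h => hy ⟨x, h⟩
  exact ⟨fun x => e'.symm (e ⟨j x, hm x⟩),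
    e'.symm.continuous.comp (e.continuous.comp (hc.subtype_mk hm)),
    fun x x' h => hi (congrArg Subtype.val (e.injective (e'.symm.injective h)))⟩

/-- There is a quasisymmetric metric with packing exponent less than two. -/
def Low (Z : Type) [MetricSpace Z] : Prop :=
  ∃ (Y : Type) (_ : MetricSpace Y) (f : Z ≃ₜ Y) (C α β p : ℝ), 0 < C ∧ 0 < α ∧ 0 < β ∧
    0 < p ∧ p < 2 ∧ Pack Y C p ∧ (∀ x y : Y, dist x y ≤ 1) ∧
    dimH (univ : Set Y) ≤ ENNReal.ofReal p ∧ ∀ x y z : Z, z ≠ x → dist (f x) (f y) ≤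
      C * ((dist x y / dist x z) ^ α + (dist x y / dist x z) ^ β) * dist (f x) (f z)

theorem conn_case {G Z : Type} [Group G] [MetricSpace Z] [CompactSpace Z] [ConnectedSpace Z]
    [Nontrivial Z] [MulAction G Z] (H : KKC.HB G Z) [LocallyPathConnectedSpace Z]
    (hn : ∀ c : Z, IsPreconnected ({c}ᶜ : Set Z))
    (hm : ∀ (lam : ℝ) (ι : Z → Pl), KCC.LL Z lam → Continuous ι → Function.Injective ι → Low Z)
    {j : Z → S2} (hc : Continuous j) (hi : Function.Injective j) :
    ∃ f : Z → S2, WQS f ∧ Function.Injective f := by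
  by_cases hs : Function.Surjective j
  · exact KCC.exists_wqs_sphere H
      (Continuous.homeoOfEquivCompactToT2 (f := Equiv.ofBijective j ⟨hi, hs⟩) hc)
  obtain ⟨ι, h1, h2⟩ := exists_plane hc hi hs
  obtain ⟨lam, hl⟩ := KCC.ll_of_hb H (isOpen_univ.isConnected_iff_isPathConnected.1 isConnected_univ)
    fun y => isOpen_compl_singleton.isConnected_iff_isPathConnected.1
      ⟨(exists_ne y).imp fun _ h => h, hn y⟩
  obtain ⟨Y, _, F, K, α, β, p, k1, k2, k3, k4, k5, k6, -, -, k7⟩ := hm lam ι hl h1 h2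
  exact phase3 h1 h2 (ll_of_ll hl) F k1 k2 k3 k4 k5 k6 k7

end KP3
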