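import Pool.Agent.Lib.MP_e1e491_gt.P3.Core

/-! Points of one layer with close nearest points are joined near the boundary. -/

namespace KP3

open Set Metric KP2

namespace Em

variable {S : Type} [MetricSpace S] [CompactSpace S] {D : Em S}

/-- `κ₀` is the outer core, `B` the closure of an inner core, `κ₂` a core in between. -/
theorem join {C r ω t : ℝ} (hL : LL S C) (hω : D.Om r ω) (hr : 0 < r) (ht : r ≤ t)
    {κ₀ κ₂ B : Set Pl} (o₀ : IsOpen κ₀) (c₀ : IsPreconnected κ₀) (u₀ : D.Up κ₀) (s₀ : κ₀ ⊆ QQ)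
    (n₀ : ∀ x, D.ι x ∉ κ₀) (u₂ : D.Up κ₂) (hB : IsClosed B) (hB₂ : B ⊆ κ₂) (h₂ : κ₂ ⊆ κ₀)
    (hδ : ∀ z ∈ κ₀, z ∉ B → D.δ z ≤ ω) (ξ : S) :
    ∃ Ω : Set Pl, IsPreconnected Ω ∧ Ω ⊆ κ₀ ∧ Disjoint Ω B ∧
      (∀ z ∈ Ω, ∀ x, D.Ft z x → dist ξ x ≤ 3 * C ^ 2 * t) ∧
      ∀ v ∈ κ₀, v ∉ κ₂ → ∀ x, D.Ft v x → dist ξ x ≤ t → v ∈ Ω := by
  have hC := hL.one_le
  have ht0 : 0 < t := hr.trans_le ht
  have hCt : t ≤ C * t := le_mul_of_one_le_left ht0.le hC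
  obtain ⟨A, hAc, hAp, hA1, hA2⟩ := hL.exists_far_set ξ (ρ := 3 * C * t) (by positivity)
  have hQ : IsCompact QQ := isCompact_Icc
  have hQc : Convex ℝ QQ := convex_Icc _ _
  have hseg : ∀ z w : Pl, IsPreconnected (segment ℝ z w) := fun z w =>
    (convex_segment z w).isPreconnected
  set W : Set Pl := QQ ∩ ({w | D.δ w ≤ ω} ∩ {w | ∃ x ∈ A, D.Ft w x}) with hW
  have hWc : IsCompact W := hQ.inter_right
    ((isClosed_le D.continuous_δ continuous_const).inter (D.isClosed_ft hAc))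
  have hX₂ : IsCompact (B ∪ W) :=
    (hQ.of_isClosed_subset hB (hB₂.trans (h₂.trans s₀))).union hWc
  have hX₁ : IsCompact (QQ \ κ₀) := hQ.diff o₀
  have hI : IsPreconnected ((QQ \ κ₀) ∩ (B ∪ W)) := by
    have key : ∀ w ∈ (QQ \ κ₀) ∩ (B ∪ W), 0 ≤ ω ∧ ∃ a ∈ A,
        segment ℝ w (D.ι a) ⊆ (QQ \ κ₀) ∩ (B ∪ W) := by
      rintro w ⟨⟨h1, h2⟩, h3 | ⟨-, h3, a, ha, h4⟩⟩
      · exact absurd (h₂ (hB₂ h3)) h2
      refine ⟨(D.δ_nonneg w).trans h3, a, ha, fun w' hw' => ?_⟩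
      have h5 := hQc.segment_subset h1 (D.mem_QQ a) hw'
      exact ⟨⟨h5, fun h => h2 (u₀ w a w' h4 hw' h)⟩,
        Or.inr ⟨h5, (h4.seg hw').2.trans h3, a, ha, (h4.seg hw').1⟩⟩
    refine isPreconnected_of_forall_pair fun y hy z hz => ?_
    obtain ⟨h0, a, ha, h1⟩ := key y hy
    obtain ⟨-, b, hb, h2⟩ := key z hz
    refine ⟨segment ℝ y (D.ι a) ∪ D.ι '' A ∪ segment ℝ z (D.ι b),
      union_subset (union_subset h1 ?_) h2, Or.inl (Or.inl (left_mem_segment _ _ _)),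
      Or.inr (left_mem_segment _ _ _), ?_⟩
    · rintro _ ⟨x, hx, rfl⟩
      refine ⟨⟨D.mem_QQ x, n₀ x⟩, Or.inr ⟨D.mem_QQ x, ?_, x, hx, D.ft_self x⟩⟩
      exact ((D.δ_le _ x).trans_eq (dist_self _)).trans h0
    · exact ((hseg _ _).union (D.ι a) (right_mem_segment _ _ _) (mem_image_of_mem _ ha)
        (hAp.image _ D.cont.continuousOn)).union (D.ι b) (Or.inr ⟨b, hb, rfl⟩)
        (right_mem_segment _ _ _) (hseg _ _)
  have hK : ∀ v, v ∉ κ₂ → ∀ x, D.Ft v x → dist ξ x ≤ t → ∃ K : Set Pl, IsPreconnected K ∧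
      v ∈ K ∧ D.ι ξ ∈ K ∧ Disjoint K (B ∪ W) := fun v hv x hx hd => by
    obtain ⟨E, hE, e1, e2, e3⟩ := hL.llc1 ξ x
    refine ⟨segment ℝ v (D.ι x) ∪ D.ι '' E, (hseg _ _).union (D.ι x) (right_mem_segment _ _ _)
      ⟨x, e2, rfl⟩ (hE.image _ D.cont.continuousOn), Or.inl (left_mem_segment _ _ _),
      Or.inr ⟨ξ, e1, rfl⟩, disjoint_left.2 ?_⟩
    rintro w (hw | ⟨e, he, rfl⟩) (h | ⟨-, h3, a, ha, h4⟩)
    · exact hv (u₂ v x w hx hw (hB₂ h))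
    · have h5 := hω.ft (hx.seg hw).1 h4 h3
      have h6 := hA2 a ha
      have h7 := dist_triangle ξ x a
      linarith
    · exact n₀ e (h₂ (hB₂ h))
    · have h6 := hA2 a ha
      have h7 := e3 e he
      have h8 := mul_le_mul_of_nonneg_left hd (by linarith : 0 ≤ C)
      rw [h4.eq_of_ι] at h6
      linarith
  by_cases hV : ∃ v ∈ κ₀, v ∉ κ₂ ∧ ∃ x, D.Ft v x ∧ dist ξ x ≤ t
  swap
  · exact ⟨∅, isPreconnected_empty, empty_subset _, empty_disjoint _, fun _ h => h.elim,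
      fun v h1 h2 x h3 h4 => hV ⟨v, h1, h2, x, h3, h4⟩⟩
  obtain ⟨v₀, a1, a2, x₀, a3, a4⟩ := hV
  obtain ⟨K₀, k1, k2, k3, k4⟩ := hK v₀ a2 x₀ a3 a4
  have hin : ∀ v ∈ κ₀, v ∉ κ₂ → ∀ x, D.Ft v x → dist ξ x ≤ t →
      v ∈ connectedComponentIn ((QQ \ κ₀) ∪ (B ∪ W))ᶜ v₀ := fun v h1 h2 x h3 h4 => by
    obtain ⟨K, l1, l2, l3, l4⟩ := hK v h2 x h3 h4
    exact janis hX₁ hX₂ hI c₀ (k1.union _ k3 l3 l1) disjoint_sdiff_right
      (disjoint_union_left.2 ⟨k4, l4⟩) a1 h1 (Or.inl k2) (Or.inr l2)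
  have hsub := connectedComponentIn_subset ((QQ \ κ₀) ∪ (B ∪ W))ᶜ v₀
  have hκ : connectedComponentIn ((QQ \ κ₀) ∪ (B ∪ W))ᶜ v₀ ⊆ κ₀ :=
    isPreconnected_connectedComponentIn.subset_left_of_subset_union o₀
      hQ.isClosed.isOpen_compl (disjoint_compl_right.mono_left s₀)
      (fun z hz => by
        by_contra hn
        rw [mem_union, not_or, mem_compl_iff, not_not] at hn
        exact hsub hz (Or.inl ⟨hn.2, hn.1⟩))
      ⟨v₀, hin v₀ a1 a2 x₀ a3 a4, a1⟩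
  refine ⟨_, isPreconnected_connectedComponentIn, hκ,
    disjoint_left.2 fun z hz h => hsub hz (Or.inr (Or.inl h)), fun z hz x hx => ?_, hin⟩
  by_contra hn
  refine hsub hz (Or.inr (Or.inr ⟨s₀ (hκ hz),
    hδ z (hκ hz) fun h => hsub hz (Or.inr (Or.inl h)), x, hA1 x ?_, hx⟩))
  linarith [not_le.1 hn]

end Em

end KP3
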