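import Pool.Agent.Lib.MP_e1e491_gt.P3.Hole

/-! Three holes do not come close to each other at three places. -/

namespace KP3

open Set Metric KP2

variable {S : Type} [MetricSpace S] [CompactSpace S] {D : Em S}

theorem k33_edge {C η : ℝ} (hL : LL S C) (hη : 0 < η) {O : Set Pl} (hO : D.Hol O) {c : Pl}
    (hc : c ∈ O) {a b : S} (ha : a ∈ D.P O) (hb : dist b a ≤ η) : ∃ E : Set Pl, IsCompact E ∧
      IsPreconnected E ∧ c ∈ E ∧ D.ι b ∈ E ∧ E ⊆ O ∪ D.ι '' closedBall b (2 * C * η) := by
  obtain ⟨ω, hω, hom⟩ := D.exists_om hη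
  obtain ⟨v, hv, hd⟩ := Metric.mem_closure_iff.1 ha ω hω
  obtain ⟨x, hx⟩ := D.exists_ft v
  have h1 : dist a x ≤ η := hom a x (by
    have h2 := dist_triangle (D.ι a) v (D.ι x)
    have h3 : dist v (D.ι x) ≤ dist v (D.ι a) := hx.le.trans (D.δ_le v a)
    rw [dist_comm v (D.ι a)] at h3
    linarith)
  obtain ⟨E, e1, e2, e3, e4⟩ := hL.llc1 b x
  have hC := hL.one_le
  have h2 : closure E ⊆ closedBall b (2 * C * η) := by
    refine closure_minimal (fun w hw => ?_) isClosed_closedBall
    have h3 := dist_triangle b a x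
    rw [mem_closedBall, dist_comm]
    refine (e4 w hw).trans ?_
    nlinarith
  obtain ⟨γ, hγ⟩ := (hO.isOpen.isConnected_iff_isPathConnected.1 hO.isConnected).joinedIn c hc v hv
  have h3 : D.ι x ∈ D.ι '' closure E := mem_image_of_mem _ (subset_closure e3)
  refine ⟨range γ ∪ (segment ℝ v (D.ι x) ∪ D.ι '' closure E), (isCompact_range γ.continuous).union
    (IsCompact.union ?_ (isClosed_closure.isCompact.image D.cont)), ?_,
    Or.inl ⟨0, γ.source⟩, Or.inr (Or.inr (mem_image_of_mem _ (subset_closure e2))), ?_⟩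
  · rw [segment_eq_image_lineMap]
    exact isCompact_Icc.image AffineMap.lineMap_continuous
  · exact (isPreconnected_range γ.continuous).union v ⟨1, γ.target⟩
      (Or.inl (left_mem_segment _ _ _)) ((convex_segment _ _).isPreconnected.union (D.ι x)
        (right_mem_segment _ _ _) h3 (e1.closure.image _ D.cont.continuousOn))
  · rintro z (⟨t, rfl⟩ | hz | hz)
    · exact Or.inl (hγ t)
    · rcases hx.seg_sub hO hv hz with rfl | h4
      · exact Or.inr (image_mono h2 h3)
      · exact Or.inl h4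
    · exact Or.inr (image_mono h2 hz)

theorem k33 {C η : ℝ} (hL : LL S C) (hη : 0 < η) (O : Fin 3 → Set Pl) (hO : ∀ i, D.Hol (O i))
    (hi : Function.Injective O) (a : Fin 3 → Fin 3 → S) (ha : ∀ i j, a i j ∈ D.P (O i))
    (h1 : ∀ i j, dist (a 0 j) (a i j) ≤ η)
    (h2 : ∀ j j', j ≠ j' → 4 * C * η < dist (a 0 j) (a 0 j')) : False := by
  choose c hc using fun i => (hO i).isConnected.nonempty
  choose E e1 e2 e3 e4 e5 using fun i j => k33_edge hL hη (hO i) (hc i) (ha i j) (h1 i j)
  refine no_drawing c (fun j => D.ι (a 0 j)) E e1 e2 e3 e4 fun i j k l hik hjl => ?_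
  rw [Set.disjoint_left]
  intro z hz hz'
  rcases e5 i j hz with h3 | ⟨x, hx, rfl⟩
  · rcases e5 k l hz' with h4 | ⟨y, -, rfl⟩
    · exact hik (hi ((hO i).eq_of_mem (hO k) h3 h4))
    · exact (hO i).not_mem y h3
  · rcases e5 k l hz' with h4 | ⟨y, hy, e⟩
    · exact (hO k).not_mem x h4
    · rw [D.inj e] at hy
      have h5 := h2 j l hjl
      have h6 := dist_triangle_left (a 0 j) (a 0 l) x
      rw [mem_closedBall] at hx hy
      linarith

end KP3
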