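import Pool.Agent.Lib.MP_e1e491_gt.P3.Disc
import Pool.Agent.Lib.MP_e1e491_gt.P3.Blob

/-! The limit map. -/

namespace KP3

open Set Metric KP2
open scoped Classical

theorem exists_sqs {S : Type} [MetricSpace S] [CompactSpace S] (D : Em S) {C p : ℝ}
    (hG : Geo S C p) : ∃ (g : S → Pl) (M : ℝ), SQS g ∧ (∃ a b, g a ≠ g b) ∧ ∀ x, ‖g x‖ ≤ M := by
  obtain ⟨C', hC', hB⟩ := exists_bl (D := D) hG
  obtain ⟨K, r₀, -, hr₀, hK⟩ := exists_ht (D := D) hC'
  have r0 : ∀ n : ℕ, (0 : ℝ) < 1 / ((n : ℝ) + 1) := fun n => Nat.one_div_pos_of_nat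
  have r1 : ∀ n : ℕ, 1 / ((n : ℝ) + 1) ≤ 1 := fun n =>
    (div_le_one (by positivity)).2 (le_add_of_nonneg_left n.cast_nonneg)
  have r2 : ∀ r : ℝ, 0 < r → ∀ᶠ n : ℕ in Filter.atTop, 1 / ((n : ℝ) + 1) ≤ r := fun r hr =>
    tendsto_one_div_add_atTop_nhds_zero_nat.eventually (eventually_le_nhds hr)
  choose V F hV using fun n : ℕ => hB _ (r0 n) (r1 n)
  have B := fun n => (hV n).some
  choose m X H T using fun n => exists_til (B n).hc (B n).conn
  obtain ⟨a, ha⟩ := D.exists_corner fun _ => false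
  obtain ⟨b, hb⟩ := D.exists_corner fun _ => true
  have hab : b ≠ a := fun e => by
    have := ha false
    rw [← e, hb] at this
    simp [bv] at this
  obtain ⟨g, h1, h2, h3⟩ := exists_limit (fun n x i => X n i ((B n).β x)) (M := K) (a := b) (b := a)
    ((r2 r₀ hr₀).mono fun n hn x => by
      have k := hK _ _ (B n) _ _ _ (T n) (r0 n) hn
      refine (pi_norm_le_iff_of_nonneg (((T n).H_pos false).le.trans (k false).1)).2 fun i => ?_
      rw [Real.norm_of_nonneg ((T n).X_nonneg _ _)]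
      linarith [(T n).le_H i ((B n).β x), (T n).m_nonneg ((B n).β x), (k i).1])
    (by
      obtain ⟨ε, hε, k⟩ := disc (D := D) hG.ll hC' one_pos
      obtain ⟨r₁, hr₁, k⟩ := k b b a hab (by rw [dist_self]; positivity)
      refine (r2 r₁ hr₁).mono fun n hn => ?_
      have k1 := (k _ _ (B n) _ _ _ (T n) (r0 n) hn).2
      have k2 := (T n).zero false _ ((B n).side_β a false false (ha false))
      have k3 := (T n).one false _ ((B n).side_β b false true (hb false))
      have k4 := (le_abs_self _).trans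
        (dist_le_pi_dist (fun i => X n i ((B n).β b)) (fun i => X n i ((B n).β a)) false)
      rw [(T n).H_false] at k3
      linarith)
    fun δ hδ => by
      obtain ⟨ε, hε, k⟩ := disc (D := D) hG.ll hC' hδ
      refine ⟨ε, hε, fun x y z hxz hxy => ?_⟩
      obtain ⟨r₁, hr₁, k⟩ := k x y z hxz hxy
      exact (r2 r₁ hr₁).mono fun n hn => (k _ _ (B n) _ _ _ (T n) (r0 n) hn).1
  exact ⟨g, K, h1, ⟨b, a, h2⟩, h3⟩

end KP3
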