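import Pool.Agent.Lib.MP_e1e491_gt.P3.Join

/-! The shingles that fill a big hole. -/

namespace KP3

open Set Metric KP2

variable {S : Type} [MetricSpace S] [CompactSpace S] {D : Em S}

theorem shh_scale (D : Em S) {r : ℝ} (hr : 0 < r) {O : Set Pl} (hj : D.Big r O) :
    ∃ K : ℕ, D.Big (2 ^ K * r / 2) O ∧ ∀ x ∈ D.P O, ∀ y ∈ D.P O, dist x y ≤ 2 ^ K * r := by
  classical
  obtain ⟨R, -, hR⟩ := exists_diam S
  have hex : ∃ K : ℕ, ∀ x ∈ D.P O, ∀ y ∈ D.P O, dist x y ≤ 2 ^ K * r := by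
    obtain ⟨n, hn⟩ := pow_unbounded_of_one_lt (R / r) (show (1 : ℝ) < 2 by norm_num)
    refine ⟨n, fun x _ y _ => (hR x y).trans ?_⟩
    rw [div_lt_iff₀ hr] at hn
    exact hn.le
  refine ⟨Nat.find hex, ?_, Nat.find_spec hex⟩
  rcases h0 : Nat.find hex with _ | K
  · obtain ⟨x, hx, y, hy, hxy⟩ := hj
    exact ⟨x, hx, y, hy, by linarith⟩
  · have h2 := Nat.find_min hex (show K < Nat.find hex by omega)
    push Not at h2
    obtain ⟨x, hx, y, hy, hxy⟩ := h2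
    exact ⟨x, hx, y, hy, by rw [pow_succ]; linarith⟩

theorem shh_co {ω : ℝ} (hω0 : 0 < ω) {O : Set Pl} (hO : D.Hol O) (K : ℕ) :
    ∃ co : ℕ → Set Pl, (∀ j, IsOpen (co j) ∧ IsPreconnected (co j) ∧ D.Up (co j)) ∧
      (∀ j j', j < j' → closure (co j') ⊆ co j) ∧ (∀ j, closure (co j) ⊆ O) ∧
      ∀ j ≤ K + 4, ∀ z ∈ O, z ∉ co j → D.δ z ≤ ω := by
  obtain ⟨c, hc⟩ := hO.isConnected.nonempty
  obtain ⟨ε, hε, h⟩ := Em.exists_core hO hc hω0
  obtain ⟨e, he, e1⟩ : ∃ e : ℝ, 0 < e ∧ e * (K + 5) = ε :=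
    ⟨ε / (K + 5), by positivity, by field_simp⟩
  refine ⟨fun j => D.core c (e * (j + 1)), fun j => ⟨D.isOpen_core _ _, D.core_conn _ _,
    D.up_core _ _⟩, fun j j' hj => Em.closure_core ?_, fun j =>
      (Em.closure_core (ε := 0) (by positivity)).trans (Em.core_sub hO hc le_rfl),
    fun j hj z hz hz' => ?_⟩
  · have : (j : ℝ) < j' := by exact_mod_cast hj
    nlinarith
  · by_contra h1
    refine hz' (Em.core_mono ?_ (h z hz (not_le.1 h1).le))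
    have : (j : ℝ) ≤ K + 4 := by exact_mod_cast hj
    nlinarith

theorem exists_hole {C r ω : ℝ} (hL : LL S C) (hr : 0 < r) (hω0 : 0 < ω) (hω : D.Om r ω)
    {O : Set Pl} (hO : D.Hol O) (hb : D.Big r O) :
    ∃ (K : ℕ) (N : ℕ → Finset S) (U : ℕ → S → Set Pl) (κ : Set Pl),
      D.Big (2 ^ K * r / 2) O ∧
      (∀ k, (N k : Set S) ⊆ D.P O ∧ Sepd (2 ^ k * r) (N k)) ∧
      (∀ k ≤ K, ∀ q, IsCompact (U k q) ∧ IsPreconnected (U k q) ∧ U k q ⊆ O) ∧
      (IsOpen κ ∧ κ ⊆ O ∧ D.Up κ ∧ ∀ z ∈ O, z ∉ κ → D.δ z ≤ ω) ∧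
      (∀ z ∈ κ, ∃ k ≤ K, ∃ q ∈ N k, z ∈ U k q) ∧
      (∀ k ≤ K, ∀ q ∈ N k, ∀ z ∈ U k q, (z ∉ κ → k ≤ 1) ∧
        ∀ x, D.Ft z x → dist q x ≤ 4 * C ^ 2 * (2 ^ k * r)) ∧
      ∀ k ≤ K, ∀ k' ≤ K, ∀ q q', (U k q ∩ U k' q').Nonempty → k ≤ k' + 3 := by
  obtain ⟨K, hK1, hK2⟩ := shh_scale D hr hb
  obtain ⟨co, c1, c2, c3, c4⟩ := shh_co hω0 hO K
  have hC : 1 ≤ C ^ 2 := one_le_pow₀ hL.one_le
  have ht : ∀ k : ℕ, r ≤ 2 ^ k * r := fun k =>
    le_mul_of_one_le_left hr.le (one_le_pow₀ one_le_two)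
  have c5 : ∀ j j', j ≤ j' → co j' ⊆ co j := fun j j' h =>
    h.eq_or_lt.elim (fun e => e ▸ Subset.rfl) fun h => subset_closure.trans (c2 j j' h)
  have c6 : ∀ j, co j ⊆ O := fun j => subset_closure.trans (c3 j)
  choose N hN1 hN2 hN3 using fun k : ℕ => exists_net (D.P O) (hr.trans_le (ht k))
  choose! Ω o1 o2 o3 o4 o5 using fun (k : ℕ) (hk : k < K) (q : S) =>
    Em.join hL hω hr (ht k) (c1 k).1 (c1 k).2.1 (c1 k).2.2 ((c6 k).trans hO.sub)
      (fun x h => hO.not_mem x (c6 k h)) (c1 (k + 2)).2.2 isClosed_closure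
      (c2 (k + 2) (k + 3) (by omega)) (c5 k (k + 2) (by omega))
      (fun z hz hz' => c4 (k + 3) (by omega) z (c6 k hz) fun h => hz' (subset_closure h)) q
  obtain ⟨U, u1, u2⟩ : ∃ U : ℕ → S → Set Pl, (∀ k < K, ∀ q, U k q = closure (Ω k q)) ∧
      ∀ q, U K q = closure (co (K + 1)) :=
    ⟨fun k q => if k < K then closure (Ω k q) else closure (co (K + 1)),
      fun k hk q => if_pos hk, fun q => if_neg (lt_irrefl K)⟩
  have u3 : ∀ k ≤ K, ∀ q, U k q ⊆ closure (co k) := fun k hk q => by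
    rcases hk.eq_or_lt with rfl | hk
    · rw [u2]
      exact closure_mono (c5 _ _ (by omega))
    · rw [u1 k hk]
      exact closure_mono (o2 k hk q)
  have u4 : ∀ k < K, ∀ q, Disjoint (U k q) (co (k + 3)) := fun k hk q => by
    rw [u1 k hk]
    exact ((o3 k hk q).mono_right subset_closure).closure_left (c1 _).1
  refine ⟨K, N, U, co 1, hK1, fun k => ⟨hN1 k, hN2 k⟩, fun k hk q => ?_,
    ⟨(c1 1).1, c6 1, (c1 1).2.2, c4 1 (by omega)⟩, fun z hz => ?_,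
    fun k hk q hq z hz => ⟨fun h => ?_, fun x hx => ?_⟩, ?_⟩
  · have h1 : U k q ⊆ O := (u3 k hk q).trans (c3 k)
    have h2 : IsClosed (U k q) ∧ IsPreconnected (U k q) := by
      rcases hk.eq_or_lt with rfl | hk
      · rw [u2]
        exact ⟨isClosed_closure, (c1 _).2.1.closure⟩
      · rw [u1 k hk]
        exact ⟨isClosed_closure, (o1 k hk q).closure⟩
    exact ⟨isCompact_Icc.of_isClosed_subset h2.1 (h1.trans hO.sub), h2.2, h1⟩
  · obtain ⟨x, hx⟩ := D.exists_ft z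
    have hxP := hx.mem_P hO (c6 1 hz)
    by_cases h : z ∈ co (K + 1)
    · obtain ⟨q, hq, -⟩ := hN3 K x hxP
      exact ⟨K, le_rfl, q, hq, by rw [u2]; exact subset_closure h⟩
    have h1 : ∀ m, z ∉ co (m + 1) → ∃ j < m, z ∈ co j ∧ z ∉ co (j + 2) := by
      intro m
      induction m with
      | zero => exact fun h => absurd hz h
      | succ m ih =>
        intro h
        by_cases h2 : z ∈ co (m + 1)
        · exact ⟨m, by omega, c5 _ _ (by omega) h2, h⟩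
        · obtain ⟨j, h3, h4⟩ := ih h2
          exact ⟨j, by omega, h4⟩
    obtain ⟨j, h2, h3, h4⟩ := h1 K h
    obtain ⟨q, hq, h5⟩ := hN3 j x hxP
    exact ⟨j, h2.le, q, hq, by rw [u1 j h2]; exact subset_closure (o5 j h2 q z h3 h4 x hx h5.le)⟩
  · by_contra h1
    exact h (c2 1 k (by omega) (u3 k hk q hz))
  · have hzO : z ∈ O := c3 k (u3 k hk q hz)
    have h0 : (0 : ℝ) < 2 ^ k * r := by positivity
    rcases hk.eq_or_lt with rfl | hk
    · exact (hK2 q (hN1 k hq) x (hx.mem_P hO hzO)).trans (by nlinarith)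
    · have h1 := c4 (k + 3) (by omega) z hzO (disjoint_left.1 (u4 k hk q) hz)
      rw [u1 k hk] at hz
      obtain ⟨y, hy, h2⟩ := closure_minimal (fun w hw => by
          obtain ⟨y, hy⟩ := D.exists_ft w
          exact ⟨y, mem_closedBall'.2 (o4 k hk q w hw y hy), hy⟩)
        (D.isClosed_ft (isClosed_closedBall (x := q) (ε := 3 * C ^ 2 * (2 ^ k * r)))) hz
      nlinarith [dist_triangle q y x, mem_closedBall'.1 hy, hω.ft h2 hx h1, ht k]
  · rintro k hk k' hk' q q' ⟨z, h1, h2⟩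
    by_contra h
    exact disjoint_left.1 (u4 k' (by omega) q') h2 (c2 _ k (by omega) (u3 k hk q h1))

end KP3
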