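import Pool.Agent.Lib.MP_e1e491_gt.P3.ShS
import Pool.Agent.Lib.MP_e1e491_gt.P3.ShH
import Pool.Agent.Lib.MP_e1e491_gt.P3.Cnt

/-! Shingles exist at all scales. -/

namespace KP3

open Set Metric KP2
open scoped Classical

variable {S : Type} [MetricSpace S] [CompactSpace S] {D : Em S}

omit [CompactSpace S] in
theorem sha_level {C p r t : ℝ} (hG : Geo S C p) (ht : 0 < t) (x : S) {n : ℕ}
    (hn : ∀ F : Finset (Set Pl),
      (∀ O ∈ F, D.Hol O ∧ D.Big (t / 2) O ∧ ∃ y ∈ D.P O, dist x y ≤ t) → F.card ≤ n)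
    (N : Set Pl → ℕ → Finset S) (T : Finset (Set Pl × ℕ × S)) (k : ℕ)
    (hN : ∀ q ∈ T, (N q.1 q.2.1 : Set S) ⊆ D.P q.1 ∧ Sepd (2 ^ q.2.1 * r) (N q.1 q.2.1))
    (hT : ∀ q ∈ T, D.Hol q.1 ∧ q.2.2 ∈ N q.1 q.2.1 ∧ D.Big (t / 2) q.1 ∧ t ≤ 2 ^ q.2.1 * r ∧
      2 ^ q.2.1 * r ≤ 2 * t ∧ dist x q.2.2 ≤ t) (hk : ∀ q ∈ T, q.2.1 = k) :
    (T.card : ℝ) ≤ n * C := by
  have hC : 1 ≤ C := hG.one_le
  have h1 : (T.image fun q => q.1).card ≤ n := by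
    refine hn _ fun O hO => ?_
    obtain ⟨q, hq, rfl⟩ := Finset.mem_image.1 hO
    obtain ⟨a, b, c, -, -, d⟩ := hT q hq
    exact ⟨a, c, q.2.2, (hN q hq).1 b, d⟩
  have h2 : ∀ O ∈ T.image fun q => q.1, ((T.filter fun q => q.1 = O).card : ℝ) ≤ C := by
    intro O _
    have hinj : Set.InjOn (fun q : Set Pl × ℕ × S => q.2.2) (T.filter fun q => q.1 = O) := by
      intro q hq q' hq' h
      obtain ⟨a, b⟩ := Finset.mem_filter.1 hq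
      obtain ⟨a', b'⟩ := Finset.mem_filter.1 hq'
      exact Prod.ext (b.trans b'.symm) (Prod.ext ((hk q a).trans (hk q' a').symm) h)
    have h := hG.pack t t ht le_rfl x ((T.filter fun q => q.1 = O).image fun q => q.2.2) (by
      intro y hy y' hy' hne
      obtain ⟨q, hq, rfl⟩ := Finset.mem_image.1 hy
      obtain ⟨q', hq', rfl⟩ := Finset.mem_image.1 hy'
      obtain ⟨a, b⟩ := Finset.mem_filter.1 hq
      obtain ⟨a', b'⟩ := Finset.mem_filter.1 hq'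
      have h4 : q'.2.2 ∈ N q.1 q.2.1 := by
        rw [b.trans b'.symm, (hk q a).trans (hk q' a').symm]
        exact (hT q' a').2.1
      exact (hT q a).2.2.2.1.trans ((hN q a).2 _ (hT q a).2.1 _ h4 hne)) (by
      intro y hy
      obtain ⟨q, hq, rfl⟩ := Finset.mem_image.1 hy
      rw [dist_comm]
      exact (hT q (Finset.mem_filter.1 hq).1).2.2.2.2.2)
    rwa [Finset.card_image_of_injOn hinj, div_self ht.ne', Real.one_rpow, mul_one] at h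
  rw [Finset.card_eq_sum_card_image (fun q => q.1) T, Nat.cast_sum]
  refine (Finset.sum_le_sum h2).trans ?_
  rw [Finset.sum_const, nsmul_eq_mul]
  exact mul_le_mul_of_nonneg_right (by exact_mod_cast h1) (by linarith)

/-- Counting the shingles of the holes with a given size near a point. -/
theorem count_hole {C p : ℝ} (hG : Geo S C p) : ∃ M : ℝ, 0 ≤ M ∧ ∀ r t : ℝ, 0 < r → 0 < t →
    ∀ (x : S) (N : Set Pl → ℕ → Finset S) (T : Finset (Set Pl × ℕ × S)),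
      (∀ q ∈ T, (N q.1 q.2.1 : Set S) ⊆ D.P q.1 ∧ Sepd (2 ^ q.2.1 * r) (N q.1 q.2.1)) →
      (∀ q ∈ T, D.Hol q.1 ∧ q.2.2 ∈ N q.1 q.2.1 ∧ D.Big (t / 2) q.1 ∧ t ≤ 2 ^ q.2.1 * r ∧
        2 ^ q.2.1 * r ≤ 2 * t ∧ dist x q.2.2 ≤ t) → (T.card : ℝ) ≤ M := by
  obtain ⟨n, hn⟩ := exists_cnt (D := D) hG
  have hC : 1 ≤ C := hG.one_le
  refine ⟨2 * (n * C), by positivity, fun r t hr ht x N T hN hT => ?_⟩
  rcases T.eq_empty_or_nonempty with rfl | hne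
  · simp only [Finset.card_empty, Nat.cast_zero]
    positivity
  obtain ⟨q0, hq0, hmin⟩ := T.exists_min_image (fun q => q.2.1) hne
  have hlev : ∀ q ∈ T, ¬ q.2.1 = q0.2.1 → q.2.1 = q0.2.1 + 1 := by
    intro q hq h
    have h1 := hmin q hq
    have h2 : (2 : ℝ) ^ q.2.1 * r ≤ 2 ^ (q0.2.1 + 1) * r := by
      have h3 := (hT q hq).2.2.2.2.1
      have h4 := (hT q0 hq0).2.2.2.1
      rw [pow_succ]
      linarith
    have h5 : (2 : ℝ) ^ q.2.1 ≤ 2 ^ (q0.2.1 + 1) := le_of_mul_le_mul_right h2 hr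
    have h6 : q.2.1 ≤ q0.2.1 + 1 := (pow_le_pow_iff_right₀ (by norm_num : (1 : ℝ) < 2)).1 h5
    omega
  have hs := Finset.card_filter_add_card_filter_not (s := T) (fun q => q.2.1 = q0.2.1)
  have ha := sha_level hG ht x (hn x t ht) N (T.filter fun q => q.2.1 = q0.2.1) q0.2.1
    (fun q hq => hN q (Finset.mem_filter.1 hq).1) (fun q hq => hT q (Finset.mem_filter.1 hq).1)
    (fun q hq => (Finset.mem_filter.1 hq).2)
  have hb := sha_level hG ht x (hn x t ht) N (T.filter fun q => ¬ q.2.1 = q0.2.1) (q0.2.1 + 1)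
    (fun q hq => hN q (Finset.mem_filter.1 hq).1) (fun q hq => hT q (Finset.mem_filter.1 hq).1)
    (fun q hq => hlev q (Finset.mem_filter.1 hq).1 (Finset.mem_filter.1 hq).2)
  rw [← hs]
  push_cast
  linarith

omit [CompactSpace S] in
/-- A family indexed by a finite subset of an ambient type. -/
theorem sha_of_finset {Y : Type} {C r : ℝ} (F : Finset Y) (U : Y → Set Pl) (l : Y → S)
    (s : Y → ℝ) (h1 : ∀ i ∈ F, IsCompact (U i) ∧ IsPreconnected (U i) ∧ U i ⊆ QQ)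
    (h2 : ∀ z ∈ QQ, ∃ i ∈ F, z ∈ U i) (h3 : ∀ i ∈ F, r ≤ s i ∧ s i ≤ C)
    (h4 : ∀ i ∈ F, ∀ j ∈ F, (U i ∩ U j).Nonempty → s i ≤ C * s j ∧ dist (l i) (l j) ≤ C * s j)
    (h5 : ∀ (x : S) (t : ℝ), 0 < t → ∀ T : Finset Y,
      (∀ i ∈ T, i ∈ F ∧ t ≤ s i ∧ s i ≤ 2 * t ∧ dist x (l i) ≤ t) → (T.card : ℝ) ≤ C)
    (h6 : ∀ ξ, ∀ i ∈ F, D.ι ξ ∈ U i → s i ≤ C * r ∧ dist ξ (l i) ≤ C * r) :
    ∃ (I : Type) (_ : Fintype I), Nonempty (Sh D I C r) := by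
  refine ⟨F, inferInstance, ⟨⟨fun i => U i, fun i => l i, fun i => s i, fun i => (h1 _ i.2).1,
    fun i => (h1 _ i.2).2.1, fun i => (h1 _ i.2).2.2, ?_, fun i => (h3 _ i.2).1,
    fun i => (h3 _ i.2).2, fun i j => h4 _ i.2 _ j.2, ?_, fun ξ i => h6 ξ _ i.2⟩⟩⟩
  · intro z hz
    obtain ⟨i, hi, h⟩ := h2 z hz
    exact ⟨⟨i, hi⟩, h⟩
  · intro x t ht
    rw [← Finset.card_map (Function.Embedding.subtype fun i => i ∈ F)]
    refine h5 x t ht _ ?_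
    intro i hi
    obtain ⟨i', hi', rfl⟩ := Finset.mem_map.1 hi
    exact ⟨i'.2, (Finset.mem_filter.1 hi').2⟩

theorem exists_sh {C p : ℝ} (hG : Geo S C p) : ∃ C' : ℝ, 1 ≤ C' ∧ ∀ r : ℝ, 0 < r → r ≤ 1 →
    ∃ (I : Type) (_ : Fintype I), Nonempty (Sh D I C' r) := by
  obtain ⟨R, hR1, hR⟩ := exists_diam S
  obtain ⟨M, hM0, hM⟩ := count_hole (D := D) hG
  have hC : 1 ≤ C := hG.one_le
  have hC2 : C ≤ C ^ 2 := by nlinarith
  obtain ⟨C', hC'⟩ : ∃ C' : ℝ, C' = 40 * C ^ 2 + 2 * R + M := ⟨_, rfl⟩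
  have h4C : 40 * C ^ 2 ≤ C' := by linarith
  have h2R : 2 * R ≤ C' := by linarith
  have hcnt : C + M ≤ C' := by linarith
  refine ⟨C', by linarith, fun r hr hr1 => ?_⟩
  have hm : ∀ {u : ℝ}, 0 ≤ u → u ≤ C * u ∧ C * u ≤ C ^ 2 * u ∧ 40 * (C ^ 2 * u) ≤ C' * u := by
    intro u hu
    have a1 := mul_le_mul_of_nonneg_right hC hu
    have a2 := mul_le_mul_of_nonneg_right h4C hu
    exact ⟨by linarith, mul_le_mul_of_nonneg_right hC2 hu, by linarith⟩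
  obtain ⟨r1, r2, r3⟩ := hm hr.le
  obtain ⟨N0, -, hsep0, hnet0⟩ := exists_net (univ : Set S) hr
  obtain ⟨ω, hω0, hω⟩ := D.exists_om hr
  have hex : ∀ O, ∃ (K : ℕ) (N : ℕ → Finset S) (U : ℕ → S → Set Pl) (κ : Set Pl),
      D.Hol O ∧ D.Big r O → D.Big (2 ^ K * r / 2) O ∧
      (∀ k, (N k : Set S) ⊆ D.P O ∧ Sepd (2 ^ k * r) (N k)) ∧
      (∀ k ≤ K, ∀ q, IsCompact (U k q) ∧ IsPreconnected (U k q) ∧ U k q ⊆ O) ∧
      (IsOpen κ ∧ κ ⊆ O ∧ D.Up κ ∧ ∀ z ∈ O, z ∉ κ → D.δ z ≤ ω) ∧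
      (∀ z ∈ κ, ∃ k ≤ K, ∃ q ∈ N k, z ∈ U k q) ∧
      (∀ k ≤ K, ∀ q ∈ N k, ∀ z ∈ U k q, (z ∉ κ → k ≤ 1) ∧
        ∀ x, D.Ft z x → dist q x ≤ 4 * C ^ 2 * (2 ^ k * r)) ∧
      ∀ k ≤ K, ∀ k' ≤ K, ∀ q q', (U k q ∩ U k' q').Nonempty → k ≤ k' + 3 := by
    intro O
    by_cases hj : D.Hol O ∧ D.Big r O
    · obtain ⟨K, N, U, κ, h⟩ := exists_hole hG.ll hr hω0 hω hj.1 hj.2
      exact ⟨K, N, U, κ, fun _ => h⟩
    · exact ⟨0, fun _ => ∅, fun _ _ => ∅, ∅, fun h => absurd h hj⟩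
  choose K N U κ hH using hex
  obtain ⟨κ0, k0, hκ0⟩ : ∃ κ0 : Set Pl, IsOpen κ0 ∧
      ∀ z, z ∈ κ0 ↔ ∃ O, (D.Hol O ∧ D.Big r O) ∧ z ∈ κ O :=
    ⟨⋃ O ∈ {O | D.Hol O ∧ D.Big r O}, κ O, isOpen_biUnion fun O hO => (hH O hO).2.2.2.1.1,
      fun z => by simp only [mem_iUnion, Set.mem_ofPred_eq, exists_prop]⟩
  obtain ⟨U0, u1, u2, u3⟩ := exists_spart (D := D) hG.ll hr hω0 hω k0
    (fun z x w h1 h2 h3 => by
      obtain ⟨O, hO, h4⟩ := (hκ0 w).1 h3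
      exact (hκ0 z).2 ⟨O, hO, (hH O hO).2.2.2.1.2.2.1 z x w h1 h2 h4⟩)
    (fun z hz => by
      obtain ⟨O, hO, h4⟩ := (hκ0 z).1 hz
      exact ⟨O, hO.1, hO.2, (hH O hO).2.2.2.1.2.1 h4⟩)
    (fun O h1 h2 z hz h => (hH O ⟨h1, h2⟩).2.2.2.1.2.2.2 z hz fun h' =>
      h ((hκ0 z).2 ⟨O, ⟨h1, h2⟩, h'⟩))
  obtain ⟨T0, hT0⟩ : ∃ T0 : Finset (Set Pl × ℕ × S), ∀ q, q ∈ T0 ↔
      (D.Hol q.1 ∧ D.Big r q.1) ∧ q.2.1 ≤ K q.1 ∧ q.2.2 ∈ N q.1 q.2.1 := by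
    refine ⟨(big_finite (D := D) hG hr).toFinset.biUnion fun j => (Finset.range (K j + 1)).biUnion
      fun k => (N j k).image fun y => (j, k, y), ?_⟩
    rintro ⟨j, k, y⟩
    simp only [Finset.mem_biUnion, Set.Finite.mem_toFinset, Set.mem_ofPred_eq, Finset.mem_range,
      Finset.mem_image, Prod.mk.injEq]
    constructor
    · rintro ⟨j', hj', k', hk', y', hy', rfl, rfl, rfl⟩
      exact ⟨hj', by omega, hy'⟩
    · rintro ⟨hj, hk, hy⟩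
      exact ⟨j, hj, k, by omega, y, hy, rfl, rfl, rfl⟩
  have hpow : ∀ q ∈ T0, (2 : ℝ) ^ q.2.1 * r ≤ 2 ^ K q.1 * r := fun q hq =>
    mul_le_mul_of_nonneg_right (pow_le_pow_right₀ (by norm_num) ((hT0 q).1 hq).2.1) hr.le
  have hone : ∀ k : ℕ, r ≤ 2 ^ k * r := fun k =>
    le_mul_of_one_le_left hr.le (one_le_pow₀ (by norm_num))
  have hsub : ∀ q ∈ T0, U q.1 q.2.1 q.2.2 ⊆ q.1 := by
    intro q hq
    obtain ⟨a, b, -⟩ := (hT0 q).1 hq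
    exact ((hH _ a).2.2.1 _ b _).2.2
  have hft : ∀ q ∈ T0, ∀ z ∈ U q.1 q.2.1 q.2.2, (z ∉ κ q.1 → q.2.1 ≤ 1) ∧
      ∀ x, D.Ft z x → dist q.2.2 x ≤ 4 * C ^ 2 * (2 ^ q.2.1 * r) := by
    intro q hq
    obtain ⟨a, b, c⟩ := (hT0 q).1 hq
    exact (hH _ a).2.2.2.2.2.1 _ b _ c
  have hmix : ∀ ξ, ∀ q ∈ T0, ∀ z, z ∈ U0 ξ → z ∈ U q.1 q.2.1 q.2.2 →
      2 ^ q.2.1 * r ≤ 2 * r ∧ dist ξ q.2.2 ≤ 11 * (C ^ 2 * r) := by
    intro ξ q hq z hz hz'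
    obtain ⟨x, hx⟩ := D.exists_ft z
    obtain ⟨a, b⟩ := hft q hq z hz'
    have h1 : q.2.1 ≤ 1 := a fun h => Set.disjoint_left.1 (u1 ξ).2.2.2 hz
      ((hκ0 z).2 ⟨q.1, ((hT0 q).1 hq).1, h⟩)
    have h2 : (2 : ℝ) ^ q.2.1 * r ≤ 2 ^ 1 * r :=
      mul_le_mul_of_nonneg_right (pow_le_pow_right₀ (by norm_num) h1) hr.le
    rw [pow_one] at h2
    have h3 := mul_le_mul_of_nonneg_left h2 (show 0 ≤ 4 * C ^ 2 by positivity)
    have h4 := b x hx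
    have h5 := u3 ξ z hz x hx
    have h6 := dist_triangle_right ξ q.2.2 x
    exact ⟨h2, by linarith⟩
  refine sha_of_finset (N0.disjSum T0) (Sum.elim U0 fun q => U q.1 q.2.1 q.2.2)
    (Sum.elim id fun q => q.2.2) (Sum.elim (fun _ => r) fun q => 2 ^ q.2.1 * r) ?_ ?_ ?_ ?_ ?_ ?_
  · rintro (ξ | q) hi
    · exact ⟨(u1 ξ).1, (u1 ξ).2.1, (u1 ξ).2.2.1⟩
    · obtain ⟨a, b, -⟩ := (hT0 q).1 (Finset.inr_mem_disjSum.1 hi)
      obtain ⟨d, e, f⟩ := (hH _ a).2.2.1 _ b q.2.2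
      exact ⟨d, e, f.trans a.1.sub⟩
  · intro z hz
    by_cases hk : z ∈ κ0
    · obtain ⟨O, hO, h1⟩ := (hκ0 z).1 hk
      obtain ⟨k, hk, y, hy, h⟩ := (hH O hO).2.2.2.2.1 z h1
      exact ⟨Sum.inr (O, k, y), Finset.inr_mem_disjSum.2 ((hT0 _).2 ⟨hO, hk, hy⟩), h⟩
    · obtain ⟨x, hx⟩ := D.exists_ft z
      obtain ⟨ξ, hξ, hd⟩ := hnet0 x (mem_univ x)
      exact ⟨Sum.inl ξ, Finset.inl_mem_disjSum.2 hξ, u2 z hz hk ξ x hx hd.le⟩
  · rintro (ξ | q) hi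
    · exact ⟨le_refl r, show r ≤ C' by linarith⟩
    · have hq : q ∈ T0 := Finset.inr_mem_disjSum.1 hi
      obtain ⟨x, -, y, -, hxy⟩ := (hH _ ((hT0 q).1 hq).1).1
      have h1 := hpow q hq
      have h2 := hR x y
      exact ⟨hone _, show 2 ^ q.2.1 * r ≤ C' by linarith⟩
  · rintro (ξ | q) hi (ξ' | q') hi' ⟨z, hz, hz'⟩
    · obtain ⟨x, hx⟩ := D.exists_ft z
      have h1 := u3 ξ z hz x hx
      have h2 := u3 ξ' z hz' x hx
      have h3 := dist_triangle_right ξ ξ' x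
      exact ⟨show r ≤ C' * r by linarith, show dist ξ ξ' ≤ C' * r by linarith⟩
    · obtain ⟨-, b⟩ := hmix ξ q' (Finset.inr_mem_disjSum.1 hi') z hz hz'
      have h1 := mul_le_mul_of_nonneg_left (hone q'.2.1) (show 0 ≤ C' by linarith)
      show r ≤ C' * (2 ^ q'.2.1 * r) ∧ dist ξ q'.2.2 ≤ C' * (2 ^ q'.2.1 * r)
      exact ⟨by linarith, by linarith⟩
    · obtain ⟨a, b⟩ := hmix ξ' q (Finset.inr_mem_disjSum.1 hi) z hz' hz
      show 2 ^ q.2.1 * r ≤ C' * r ∧ dist q.2.2 ξ' ≤ C' * r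
      rw [dist_comm]
      exact ⟨by linarith, by linarith⟩
    · have hq : q ∈ T0 := Finset.inr_mem_disjSum.1 hi
      have hq' : q' ∈ T0 := Finset.inr_mem_disjSum.1 hi'
      show 2 ^ q.2.1 * r ≤ C' * (2 ^ q'.2.1 * r) ∧ dist q.2.2 q'.2.2 ≤ C' * (2 ^ q'.2.1 * r)
      obtain ⟨x, hx⟩ := D.exists_ft z
      have f1 := (hft q hq z hz).2 x hx
      have f2 := (hft q' hq' z hz').2 x hx
      have f3 := dist_triangle_right q.2.2 q'.2.2 x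
      have hj : q.1 = q'.1 :=
        ((hT0 q).1 hq).1.1.eq_of_mem ((hT0 q').1 hq').1.1 (hsub q hq hz) (hsub q' hq' hz')
      have d : q.2.1 ≤ q'.2.1 + 3 := by
        obtain ⟨j, k, y⟩ := q
        obtain ⟨j', k', y'⟩ := q'
        obtain rfl : j = j' := hj
        obtain ⟨a, b, -⟩ := (hT0 _).1 hq
        obtain ⟨-, b', -⟩ := (hT0 _).1 hq'
        exact (hH _ a).2.2.2.2.2.2 _ b _ b' _ _ ⟨z, hz, hz'⟩
      have h1 : (2 : ℝ) ^ q.2.1 * r ≤ 2 ^ (q'.2.1 + 3) * r :=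
        mul_le_mul_of_nonneg_right (pow_le_pow_right₀ (by norm_num) d) hr.le
      rw [pow_add] at h1
      have h2 := mul_le_mul_of_nonneg_left h1 (show 0 ≤ 4 * C ^ 2 by positivity)
      have h0 : (0 : ℝ) ≤ 2 ^ q'.2.1 * r := by positivity
      obtain ⟨m1, m2, m3⟩ := hm h0
      exact ⟨by linarith, by linarith⟩
  · intro x t ht T hT
    have h1 : (T.toLeft.card : ℝ) ≤ C := by
      have h := hG.pack r r hr le_rfl x T.toLeft (fun y hy y' hy' hne =>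
        hsep0 y (Finset.inl_mem_disjSum.1 (hT _ (Finset.mem_toLeft.1 hy)).1) y'
          (Finset.inl_mem_disjSum.1 (hT _ (Finset.mem_toLeft.1 hy')).1) hne) (by
        intro y hy
        obtain ⟨-, a, -, b⟩ := hT _ (Finset.mem_toLeft.1 hy)
        rw [dist_comm]
        exact le_trans b a)
      rwa [div_self hr.ne', Real.one_rpow, mul_one] at h
    have h2 : (T.toRight.card : ℝ) ≤ M := by
      refine hM r t hr ht x N T.toRight ?_ ?_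
      · intro q hq
        have hq0 := Finset.inr_mem_disjSum.1 (hT _ (Finset.mem_toRight.1 hq)).1
        exact (hH _ ((hT0 q).1 hq0).1).2.1 _
      · intro q hq
        obtain ⟨hq0, a, b, c⟩ := hT _ (Finset.mem_toRight.1 hq)
        have hq0 := Finset.inr_mem_disjSum.1 hq0
        obtain ⟨u, hu, v, hv, huv⟩ := (hH _ ((hT0 q).1 hq0).1).1
        have h3 := hpow q hq0
        have a' : t ≤ 2 ^ q.2.1 * r := a
        exact ⟨((hT0 q).1 hq0).1.1, ((hT0 q).1 hq0).2.2, ⟨u, hu, v, hv, by linarith⟩, a, b, c⟩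
    rw [← Finset.card_toLeft_add_card_toRight (u := T)]
    push_cast
    linarith
  · rintro ξ (ξ' | q) hi h
    · have h1 := u3 ξ' _ h ξ (D.ft_self ξ)
      rw [dist_comm] at h1
      exact ⟨show r ≤ C' * r by linarith, show dist ξ ξ' ≤ C' * r by linarith⟩
    · have hq : q ∈ T0 := Finset.inr_mem_disjSum.1 hi
      exact absurd (hsub q hq h) (((hT0 q).1 hq).1.1.not_mem ξ)

end KP3
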