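import Pool.Agent.Lib.MP_e1e491_gt.P3.Hole

/-! The shingles along the continuum. -/

namespace KP3

open Set Metric KP2

variable {S : Type} [MetricSpace S] [CompactSpace S] {D : Em S}

/-- The part of the closed ball that is joined to its centre. -/
def shs_A (C r : ℝ) (ξ : S) : Set S := connectedComponentIn (closedBall ξ (C * r)) ξ

/-- The points near the image of `S` with a nearest point in `A`. -/
def shs_W (D : Em S) (ω : ℝ) (κ : Set Pl) (A : Set S) : Set Pl :=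
  {z | z ∈ QQ ∧ z ∉ κ ∧ D.δ z ≤ ω ∧ ∃ x ∈ A, D.Ft z x}

/-- The same with the small holes that touch `A`. -/
def shs_U (D : Em S) (r ω : ℝ) (κ : Set Pl) (A : Set S) : Set Pl :=
  shs_W D ω κ A ∪ {z | ∃ O, D.Hol O ∧ ¬ D.Big r O ∧ (∃ a ∈ A, a ∈ D.P O) ∧ z ∈ O}

theorem shs_delta (D : Em S) (x : S) : D.δ (D.ι x) = 0 := by
  have h := D.ft_self x
  rw [Em.Ft, dist_self] at h
  exact h.symm

theorem shs_sub (D : Em S) (r ω : ℝ) (κ : Set Pl) (A : Set S) : shs_U D r ω κ A ⊆ QQ := by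
  rintro z (hz | ⟨O, hO, -, -, hz⟩)
  · exact hz.1
  · exact hO.sub hz

omit [CompactSpace S] in
theorem shs_small {r : ℝ} {O : Set Pl} (h : ¬ D.Big r O) {x y : S} (hx : x ∈ D.P O)
    (hy : y ∈ D.P O) : dist x y ≤ r :=
  le_of_not_gt fun h1 => h ⟨x, hx, y, hy, h1⟩

theorem shs_conn {r ω : ℝ} (hω0 : 0 < ω) {κ : Set Pl} (hu : D.Up κ)
    (hs : ∀ z ∈ κ, ∃ O, D.Hol O ∧ D.Big r O ∧ z ∈ O) {A : Set S} (hA : IsPreconnected A)
    {ξ : S} (hξ : ξ ∈ A) : IsPreconnected (shs_U D r ω κ A) := by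
  have h1 : D.ι '' A ⊆ shs_W D ω κ A := by
    rintro _ ⟨a, ha, rfl⟩
    refine ⟨D.mem_QQ a, fun h => ?_, ?_, a, ha, D.ft_self a⟩
    · obtain ⟨O, hO, -, h2⟩ := hs _ h
      exact hO.not_mem a h2
    · rw [shs_delta]
      exact hω0.le
  have h2 : IsPreconnected (D.ι '' A) := hA.image _ D.cont.continuousOn
  refine isPreconnected_of_forall (D.ι ξ) ?_
  rintro z (⟨hz, hzκ, hzω, x, hx, hzx⟩ | ⟨O, hO, hb, ⟨a, ha, haO⟩, hz⟩)
  · refine ⟨D.ι '' A ∪ segment ℝ z (D.ι x), union_subset (h1.trans subset_union_left) ?_,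
      Or.inl (mem_image_of_mem _ hξ), Or.inr (left_mem_segment _ _ _),
      h2.union (D.ι x) (mem_image_of_mem _ hx) (right_mem_segment _ _ _)
        (convex_segment _ _).isPreconnected⟩
    intro w hw
    have h3 := hzx.seg hw
    exact Or.inl ⟨(convex_Icc (0 : Pl) 1).segment_subset hz (D.mem_QQ x) hw,
      fun h => hzκ (hu z x w hzx hw h), h3.2.trans hzω, x, hx, h3.1⟩
  · refine ⟨D.ι '' A ∪ insert (D.ι a) O, union_subset (h1.trans subset_union_left) ?_,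
      Or.inl (mem_image_of_mem _ hξ), Or.inr (mem_insert_of_mem _ hz),
      h2.union (D.ι a) (mem_image_of_mem _ ha) (mem_insert _ _)
        (hO.isConnected.isPreconnected.subset_closure (subset_insert _ _)
          (insert_subset haO subset_closure))⟩
    refine insert_subset (Or.inl (h1 (mem_image_of_mem _ ha))) fun w hw => ?_
    exact Or.inr ⟨O, hO, hb, ⟨a, ha, haO⟩, hw⟩

theorem shs_near {r ω R : ℝ} (hr : 0 < r) (hω0 : 0 < ω) (hω : D.Om r ω) {κ : Set Pl}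
    {A : Set S} {ξ : S} (hA : A ⊆ closedBall ξ R) {z : Pl}
    (hz : z ∈ closure (shs_U D r ω κ A)) {x : S} (hx : D.Ft z x) : dist ξ x ≤ R + 2 * r := by
  have h1 : shs_U D r ω κ A ⊆ {z | ∃ x ∈ closedBall ξ (R + r), D.Ft z x} := by
    rintro w (⟨-, -, -, y, hy, hwy⟩ | ⟨O, hO, hb, ⟨a, ha, haO⟩, hw⟩)
    · exact ⟨y, closedBall_subset_closedBall (by linarith) (hA hy), hwy⟩
    · obtain ⟨y, hy⟩ := D.exists_ft w
      refine ⟨y, ?_, hy⟩
      have h2 := shs_small hb (hy.mem_P hO hw) haO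
      have h3 := mem_closedBall.1 (hA ha)
      have h4 := dist_triangle y a ξ
      rw [mem_closedBall]
      linarith
  obtain ⟨y, hy, hzy⟩ := closure_minimal h1 (D.isClosed_ft isClosed_closedBall) hz
  have h2 : dist y x ≤ r := by
    rcases le_or_gt (D.δ z) ω with h | h
    · exact hω.ft hzy hx h
    · have h3 : z ∈ QQ := closure_minimal (shs_sub D r ω κ A) isClosed_Icc hz
      rcases D.cover h3 with h4 | ⟨O, hO, hzO⟩
      · exact absurd h4 (D.δ_pos_iff.1 (hω0.trans h))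
      · obtain ⟨w, ⟨hwO, hwω⟩, hw⟩ := mem_closure_iff.1 hz (O ∩ {w | ω < D.δ w})
          (hO.isOpen.inter (isOpen_lt continuous_const D.continuous_δ)) ⟨hzO, h⟩
        rcases hw with hw | ⟨O', hO', hb, -, hw⟩
        · exact absurd hwω (not_lt.2 hw.2.2.1)
        · rw [← hO.eq_of_mem hO' hwO hw] at hb
          exact shs_small hb (hzy.mem_P hO hzO) (hx.mem_P hO hzO)
  have h3 := mem_closedBall'.1 hy
  have h4 := dist_triangle ξ y x
  linarith

theorem exists_spart {C r ω : ℝ} (hL : LL S C) (hr : 0 < r) (hω0 : 0 < ω) (hω : D.Om r ω)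
    {κ : Set Pl} (ho : IsOpen κ) (hu : D.Up κ)
    (hs : ∀ z ∈ κ, ∃ O, D.Hol O ∧ D.Big r O ∧ z ∈ O)
    (hδ : ∀ O, D.Hol O → D.Big r O → ∀ z ∈ O, z ∉ κ → D.δ z ≤ ω) :
    ∃ U : S → Set Pl,
      (∀ ξ, IsCompact (U ξ) ∧ IsPreconnected (U ξ) ∧ U ξ ⊆ QQ ∧ Disjoint (U ξ) κ) ∧
      (∀ z ∈ QQ, z ∉ κ → ∀ ξ x, D.Ft z x → dist ξ x ≤ r → z ∈ U ξ) ∧
      ∀ ξ, ∀ z ∈ U ξ, ∀ x, D.Ft z x → dist ξ x ≤ 3 * C * r := by
  have hC := hL.one_le
  have hCr : 0 ≤ C * r := by positivity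
  refine ⟨fun ξ => closure (shs_U D r ω κ (shs_A C r ξ)), fun ξ => ⟨?_, ?_, ?_, ?_⟩, ?_, ?_⟩
  · exact (isCompact_Icc (a := (0 : Pl)) (b := 1)).of_isClosed_subset isClosed_closure
      (closure_minimal (shs_sub D r ω κ _) isClosed_Icc)
  · exact (shs_conn hω0 hu hs isPreconnected_connectedComponentIn
      (mem_connectedComponentIn (mem_closedBall_self hCr))).closure
  · exact closure_minimal (shs_sub D r ω κ _) isClosed_Icc
  · refine Disjoint.closure_left (disjoint_left.2 ?_) ho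
    rintro z (hz | ⟨O, hO, hb, -, hz⟩) hκ
    · exact hz.2.1 hκ
    · obtain ⟨O', hO', hb', hz'⟩ := hs z hκ
      rw [hO.eq_of_mem hO' hz hz'] at hb
      exact hb hb'
  · intro z hz hκ ξ x hx hd
    have hxA : x ∈ shs_A C r ξ := by
      obtain ⟨E, hE, h1, h2, h3⟩ := hL.llc1 ξ x
      refine hE.subset_connectedComponentIn h1 (fun w hw => ?_) h2
      rw [mem_closedBall']
      exact (h3 w hw).trans (mul_le_mul_of_nonneg_left hd (by linarith))
    refine subset_closure ?_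
    rcases D.cover hz with ⟨y, rfl⟩ | ⟨O, hO, hzO⟩
    · refine Or.inl ⟨hz, hκ, ?_, x, hxA, hx⟩
      rw [shs_delta]
      exact hω0.le
    · by_cases hb : D.Big r O
      · exact Or.inl ⟨hz, hκ, hδ O hO hb z hzO hκ, x, hxA, hx⟩
      · exact Or.inr ⟨O, hO, hb, ⟨x, hxA, hx.mem_P hO hzO⟩, hzO⟩
  · intro ξ z hz x hx
    have h1 := shs_near hr hω0 hω (connectedComponentIn_subset _ _) hz hx
    nlinarith

end KP3
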