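import Pool.Agent.Lib.MP_e1e491_gt.P3.Defs
import Pool.Agent.Lib.MP_e1e491_gt.PT

/-! Plane topology in `Pl`: boundaries of holes, the theorem of Janiszewski, the utility graph. -/

namespace KP3

open Set Metric KP2

theorem exists_homeo_C : Nonempty (Pl ≃ₜ ℂ) := by
  have h : Module.finrank ℝ (Bool → ℝ) = Module.finrank ℝ ℂ := by simp
  exact ⟨(LinearEquiv.ofFinrankEq _ _ h).toContinuousLinearEquiv.toHomeomorph⟩

theorem closure_comp_subset {Y : Set Pl} (hY : IsClosed Y) (z : Pl) :
    closure (connectedComponentIn Yᶜ z) ⊆ connectedComponentIn Yᶜ z ∪ Y := by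
  intro w hw
  by_contra hn
  rw [mem_union, not_or] at hn
  obtain ⟨v, h1, h2⟩ := mem_closure_iff.mp hw _ (hY.isOpen_compl.connectedComponentIn (x := w))
    (mem_connectedComponentIn hn.2)
  refine hn.1 ?_
  rw [connectedComponentIn_eq h2, ← connectedComponentIn_eq h1]
  exact mem_connectedComponentIn hn.2

theorem uni_comp (e : Pl ≃ₜ ℂ) (Y : Set Pl) (z : Pl) :
    e '' connectedComponentIn Yᶜ z = connectedComponentIn (e '' Y)ᶜ (e z) := by
  by_cases hz : z ∈ Yᶜ
  · rw [e.image_connectedComponentIn hz, e.image_compl]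
  · rw [connectedComponentIn_eq_empty hz, image_empty, connectedComponentIn_eq_empty]
    rw [← e.image_compl]
    rintro ⟨w, hw, h⟩
    exact hz (e.injective h ▸ hw)

/-- The boundary of a component of the complement of a closed connected set is connected. -/
theorem bdry_conn {Y : Set Pl} (hY : IsClosed Y) (hc : IsPreconnected Y) (z : Pl) :
    IsPreconnected (closure (connectedComponentIn Yᶜ z) ∩ Y) := by
  rcases Y.eq_empty_or_nonempty with rfl | hn
  · simpa using isPreconnected_empty
  obtain ⟨e⟩ := exists_homeo_C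
  have h := KKJS.frontier_conn (e.isClosedMap _ hY)
    (IsConnected.image ⟨hn, hc⟩ e e.continuous.continuousOn) (e z)
  rw [← uni_comp, ← e.image_frontier, e.isPreconnected_image,
    (hY.isOpen_compl.connectedComponentIn (x := z)).frontier_eq] at h
  convert h using 1
  ext w
  refine ⟨fun hw => ⟨hw.1, fun h' => connectedComponentIn_subset _ _ h' hw.2⟩,
    fun hw => ⟨hw.1, (closure_comp_subset hY z hw.1).resolve_left hw.2⟩⟩

theorem janis {X₁ X₂ K₁ K₂ : Set Pl} (h₁ : IsCompact X₁) (h₂ : IsCompact X₂)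
    (h : IsPreconnected (X₁ ∩ X₂)) (k₁ : IsPreconnected K₁) (k₂ : IsPreconnected K₂)
    (d₁ : Disjoint K₁ X₁) (d₂ : Disjoint K₂ X₂) {a b : Pl} (a₁ : a ∈ K₁) (b₁ : b ∈ K₁)
    (a₂ : a ∈ K₂) (b₂ : b ∈ K₂) : b ∈ connectedComponentIn (X₁ ∪ X₂)ᶜ a := by
  obtain ⟨e⟩ := exists_homeo_C
  have j : ∀ {X K : Set Pl}, IsCompact X → IsPreconnected K → Disjoint K X → a ∈ K → b ∈ K →
      JoinedIn (e '' X)ᶜ (e a) (e b) := fun {X K} hX hK d ha hb =>
    KKJS.joined_of_open (hX.image e.continuous).isClosed.isOpen_compl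
      (hK.image e e.continuous.continuousOn)
      (by rw [← e.image_compl]; exact image_mono d.subset_compl_right)
      (mem_image_of_mem e ha) (mem_image_of_mem e hb)
  have h3 := KKJS.janiszewski (h₁.image e.continuous) (h₂.image e.continuous)
    (by rw [← image_inter e.injective]; exact h.image e e.continuous.continuousOn)
    (j h₁ k₁ d₁ a₁ b₁) (j h₂ k₂ d₂ a₂ b₂)
  rw [← image_union] at h3
  have h4 := (KKJS.joined_iff_comp ((h₁.union h₂).image e.continuous).isClosed h3.source_mem).1 h3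
  rw [← uni_comp] at h4
  obtain ⟨w, hw, h5⟩ := h4
  exact e.injective h5 ▸ hw

/-- The utility graph, drawn with continua: two independent edges meet. -/
theorem no_drawing (u v : Fin 3 → Pl) (E : Fin 3 → Fin 3 → Set Pl) (hc : ∀ i j, IsCompact (E i j))
    (hp : ∀ i j, IsPreconnected (E i j)) (hu : ∀ i j, u i ∈ E i j) (hv : ∀ i j, v j ∈ E i j)
    (hd : ∀ i j k l, i ≠ k → j ≠ l → Disjoint (E i j) (E k l)) : False := by
  obtain ⟨e⟩ := exists_homeo_C
  exact KKJS.k33 (fun i => e (u i)) (fun j => e (v j)) (fun i j => e '' E i j)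
    (fun i j => (hc i j).image e.continuous)
    (fun i j => (hp i j).image e e.continuous.continuousOn)
    (fun i j => mem_image_of_mem e (hu i j)) (fun i j => mem_image_of_mem e (hv i j))
    (fun i j k l h1 h2 => (disjoint_image_iff e.injective).2 (hd i j k l h1 h2))

end KP3
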