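import Pool.Agent.Lib.MP_e1e491_gt.P3.Defs

/-! The logarithmic test function. -/

namespace KP3

open Set Metric KP2
open scoped Classical

variable {S : Type} [MetricSpace S] {D : Em S}

theorem up_log_le {A B m : ℝ} (hm : 0 < m) (hA : m ≤ A) (hB : m ≤ B) :
    Real.log A - Real.log B ≤ |A - B| / m := by
  have hA0 : 0 < A := hm.trans_le hA
  have hB0 : 0 < B := hm.trans_le hB
  rw [← Real.log_div hA0.ne' hB0.ne']
  have h1 := Real.log_le_sub_one_of_pos (div_pos hA0 hB0)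
  have h2 : A / B - 1 = (A - B) / B := by field_simp
  have h3 : (A - B) / B ≤ |A - B| / B := div_le_div_of_nonneg_right (le_abs_self _) hB0.le
  have h4 : |A - B| / B ≤ |A - B| / m := div_le_div_of_nonneg_left (abs_nonneg _) hm hB
  linarith

theorem up_log {A B m : ℝ} (hm : 0 < m) (hA : m ≤ A) (hB : m ≤ B) :
    |Real.log A - Real.log B| ≤ |A - B| / m := by
  have h1 := up_log_le hm hA hB
  have h2 := up_log_le hm hB hA
  rw [abs_sub_comm] at h2
  exact abs_le.2 ⟨by linarith, h1⟩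

theorem up_clamp (a b x y : ℝ) : |max a (min x b) - max a (min y b)| ≤ |x - y| := by
  have h1 := le_abs_self (x - y)
  have h2 := neg_abs_le (x - y)
  have h0 := abs_nonneg (x - y)
  rw [abs_le]
  simp only [max_def, min_def]
  split_ifs <;> constructor <;> linarith

theorem up_piece {V : Type} [Fintype V] {φ s : V → ℝ} {C a q : ℝ} (ha : 0 < a)
    (hs : ∀ R, ∑ v ∈ Finset.univ.filter (fun v => φ v ≤ R), s v ^ 2 ≤ C * R ^ 2) :
    ∑ v, (if a ≤ φ v ∧ φ v ≤ q * a then (s v / φ v) ^ 2 else 0) ≤ C * q ^ 2 := by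
  have h1 := hs (q * a)
  rw [Finset.sum_filter] at h1
  have h2 : ∑ v, (if a ≤ φ v ∧ φ v ≤ q * a then (s v / φ v) ^ 2 else 0) ≤
      ∑ v, (if φ v ≤ q * a then s v ^ 2 else 0) / a ^ 2 := by
    refine Finset.sum_le_sum fun v _ => ?_
    by_cases h : a ≤ φ v ∧ φ v ≤ q * a
    · rw [if_pos h, if_pos h.2, div_pow]
      exact div_le_div_of_nonneg_left (sq_nonneg _) (pow_pos ha 2) (pow_le_pow_left₀ ha.le h.1 2)
    · rw [if_neg h]
      refine div_nonneg ?_ (sq_nonneg _)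
      split_ifs
      · exact sq_nonneg _
      · exact le_rfl
  rw [← Finset.sum_div] at h2
  refine h2.trans ?_
  rw [div_le_iff₀ (pow_pos ha 2)]
  calc _ ≤ C * (q * a) ^ 2 := h1
    _ = C * q ^ 2 * a ^ 2 := by ring

theorem up_scales {V : Type} [Fintype V] {φ s : V → ℝ} {C a q : ℝ} (ha : 0 < a) (hq : 1 ≤ q)
    (hs : ∀ R, ∑ v ∈ Finset.univ.filter (fun v => φ v ≤ R), s v ^ 2 ≤ C * R ^ 2) (n : ℕ) :
    ∑ v, (if a ≤ φ v ∧ φ v < q ^ n * a then (s v / φ v) ^ 2 else 0) ≤ n * (C * q ^ 2) := by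
  induction n with
  | zero =>
    rw [Finset.sum_eq_zero fun v _ => if_neg fun h => ?_]
    · simp
    · have h2 := h.2
      rw [pow_zero, one_mul] at h2
      linarith [h.1]
  | succ n ih =>
    have hq0 : 0 < q := by linarith
    have h1 := up_piece (q := q) (mul_pos (pow_pos hq0 n) ha) hs
    have h2 : ∑ v, (if a ≤ φ v ∧ φ v < q ^ (n + 1) * a then (s v / φ v) ^ 2 else 0) ≤
        ∑ v, ((if a ≤ φ v ∧ φ v < q ^ n * a then (s v / φ v) ^ 2 else 0) +
          (if q ^ n * a ≤ φ v ∧ φ v ≤ q * (q ^ n * a) then (s v / φ v) ^ 2 else 0)) := by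
      refine Finset.sum_le_sum fun v _ => ?_
      have h0 := sq_nonneg (s v / φ v)
      have e : q ^ (n + 1) * a = q * (q ^ n * a) := by ring
      rw [e]
      by_cases h : a ≤ φ v ∧ φ v < q * (q ^ n * a)
      · rw [if_pos h]
        by_cases h' : φ v < q ^ n * a
        · rw [if_pos ⟨h.1, h'⟩]
          split_ifs <;> linarith
        · rw [if_neg fun k => h' k.2, if_pos ⟨not_lt.1 h', h.2.le⟩, zero_add]
      · rw [if_neg h]
        split_ifs <;> linarith
    rw [Finset.sum_add_distrib] at h2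
    push_cast
    linarith

theorem up_edge {V : Type} [Fintype V] {C r : ℝ} (hC : 1 ≤ C) (B : Bl D V C r) (hr : 0 < r)
    (x : S) {v w : V} (h : B.G.Adj v w) :
    |dist x (B.l v) + B.s v - (dist x (B.l w) + B.s w)| ≤ 2 * C * B.s w := by
  obtain ⟨h1, h2⟩ := B.adj v w h
  have hv := hr.trans_le (B.le_s v)
  have hw := hr.trans_le (B.le_s w)
  have h3 := dist_triangle x (B.l v) (B.l w)
  have h4 := dist_triangle x (B.l w) (B.l v)
  rw [dist_comm (B.l w)] at h4
  have h5 : B.s w ≤ C * B.s w := le_mul_of_one_le_left hw.le hC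
  rw [abs_le]
  constructor <;> linarith

theorem exists_psi {C : ℝ} (hC : 1 ≤ C) : ∃ K : ℝ, 0 < K ∧
    ∀ (V : Type) [Fintype V] (r : ℝ) (B : Bl D V C r), 0 < r → ∀ (x : S) (r₀ R₀ : ℝ), 0 < r₀ →
      r₀ ≤ R₀ → ∃ ψ W : V → ℝ, (∀ v, 0 ≤ W v) ∧ (∀ v w, B.G.Adj v w → |ψ v - ψ w| ≤ W w) ∧
        (∀ v, dist x (B.l v) + B.s v ≤ r₀ → ψ v = 0) ∧
        (∀ v, R₀ ≤ dist x (B.l v) + B.s v → ψ v = Real.log (R₀ / r₀)) ∧
        ∑ v, W v ^ 2 ≤ K * (Real.log (R₀ / r₀) + 1) := by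
  obtain ⟨L, hL⟩ : ∃ L, L = 1 + 2 * C := ⟨_, rfl⟩
  have hL1 : 1 ≤ L := by linarith
  have hL0 : 0 < L := by linarith
  have hC0 : 0 < C := by linarith
  have hlog : 0 ≤ Real.log L := Real.log_nonneg hL1
  have hq : 1 ≤ Real.exp 1 := Real.one_le_exp zero_le_one
  refine ⟨(2 * C * L) ^ 2 * ((2 * Real.log L + 1) * (C * Real.exp 1 ^ 2)), by positivity, ?_⟩
  intro V _ r B hr x r₀ R₀ hr₀ hR
  have hR₀ : 0 < R₀ := hr₀.trans_le hR
  obtain ⟨φ, hφ⟩ : ∃ φ : V → ℝ, φ = fun v => dist x (B.l v) + B.s v := ⟨_, rfl⟩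
  have hφv : ∀ v, dist x (B.l v) + B.s v = φ v := fun v => by rw [hφ]
  have hs0 : ∀ v, 0 < B.s v := fun v => hr.trans_le (B.le_s v)
  have hsφ : ∀ v, B.s v ≤ φ v := fun v => by
    rw [← hφv]
    exact le_add_of_nonneg_left dist_nonneg
  have hφ0 : ∀ v, 0 < φ v := fun v => (hs0 v).trans_le (hsφ v)
  have hedge : ∀ v w, B.G.Adj v w → |φ v - φ w| ≤ 2 * C * B.s w := fun v w h => by
    rw [← hφv, ← hφv]
    exact up_edge hC B hr x h
  have hcmp : ∀ v w, B.G.Adj v w → φ v ≤ L * φ w := fun v w h => by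
    have h1 := (abs_le.1 (hedge v w h)).2
    have h2 : 2 * C * B.s w ≤ 2 * C * φ w := mul_le_mul_of_nonneg_left (hsφ w) (by linarith)
    rw [hL]
    linarith
  have hsum : ∀ R, ∑ v ∈ Finset.univ.filter (fun v => φ v ≤ R), B.s v ^ 2 ≤ C * R ^ 2 :=
    fun R => by
      have h := B.sum x R
      simpa only [hφv] using h
  simp only [hφv]
  refine ⟨fun v => Real.log (max r₀ (min (φ v) R₀)) - Real.log r₀,
    fun w => if r₀ / L ≤ φ w ∧ φ w ≤ L * R₀ then 2 * C * L * (B.s w / φ w) else 0,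
    fun v => ?_, fun v w h => ?_, fun v h => ?_, fun v h => ?_, ?_⟩
  · have h1 := hs0 v
    have h2 := hφ0 v
    dsimp only
    split_ifs
    · positivity
    · exact le_rfl
  · have h1 := hcmp v w h
    have h2 := hcmp w v h.symm
    have h3 := hφ0 w
    have h4 : φ w ≤ L * φ w := le_mul_of_one_le_left h3.le hL1
    dsimp only
    rw [sub_sub_sub_cancel_right]
    by_cases hw : r₀ / L ≤ φ w ∧ φ w ≤ L * R₀
    · rw [if_pos hw]
      have k0 : φ w / L ≤ R₀ := by
        rw [div_le_iff₀ hL0]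
        linarith [hw.2]
      have k1 : φ w / L ≤ φ v := by
        rw [div_le_iff₀ hL0]
        linarith
      have k2 : φ w / L ≤ φ w := by
        rw [div_le_iff₀ hL0]
        linarith
      refine (up_log (div_pos h3 hL0) (le_max_of_le_right (le_min k1 k0))
        (le_max_of_le_right (le_min k2 k0))).trans ?_
      have k3 := (up_clamp r₀ R₀ (φ v) (φ w)).trans (hedge v w h)
      refine (div_le_div_of_nonneg_right k3 (div_pos h3 hL0).le).trans (le_of_eq ?_)
      field_simp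
    · rw [if_neg hw]
      rcases not_and_or.1 hw with k | k
      · rw [not_le, lt_div_iff₀ hL0] at k
        rw [max_eq_left (min_le_of_left_le (by linarith)),
          max_eq_left (min_le_of_left_le (by linarith)), sub_self, abs_zero]
      · rw [not_le] at k
        have k1 : R₀ ≤ φ v := le_of_mul_le_mul_left (by linarith) hL0
        have k2 : R₀ ≤ L * R₀ := le_mul_of_one_le_left hR₀.le hL1
        rw [min_eq_right k1, min_eq_right (by linarith), sub_self, abs_zero]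
  · dsimp only
    rw [max_eq_left (min_le_of_left_le h), sub_self]
  · dsimp only
    rw [min_eq_right h, max_eq_right hR, Real.log_div hR₀.ne' hr₀.ne']
  · have hy0 : 0 ≤ Real.log (R₀ / r₀) := Real.log_nonneg ((one_le_div hr₀).2 hR)
    obtain ⟨y, hy⟩ : ∃ y, y = 2 * Real.log L + Real.log (R₀ / r₀) := ⟨_, rfl⟩
    have hy1 : 0 ≤ y := by linarith
    have hexp : Real.exp y = L ^ 2 * (R₀ / r₀) := by
      rw [hy, Real.exp_add, Real.exp_log (div_pos hR₀ hr₀), two_mul, Real.exp_add,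
        Real.exp_log hL0, sq]
    have hn : L * R₀ < Real.exp 1 ^ (⌊y⌋₊ + 1) * (r₀ / L) := by
      have k1 : Real.exp y < Real.exp 1 ^ (⌊y⌋₊ + 1) := by
        rw [← Real.exp_nat_mul, mul_one, Real.exp_lt_exp]
        push_cast
        exact Nat.lt_floor_add_one y
      have k2 : L * R₀ = Real.exp y * (r₀ / L) := by
        rw [hexp]
        field_simp
      rw [k2]
      exact mul_lt_mul_of_pos_right k1 (div_pos hr₀ hL0)
    have h1 := up_scales (div_pos hr₀ hL0) hq hsum (⌊y⌋₊ + 1)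
    have h2 : ∑ v, (if r₀ / L ≤ φ v ∧ φ v ≤ L * R₀ then 2 * C * L * (B.s v / φ v) else 0) ^ 2 ≤
        ∑ v, (2 * C * L) ^ 2 * (if r₀ / L ≤ φ v ∧ φ v < Real.exp 1 ^ (⌊y⌋₊ + 1) * (r₀ / L)
          then (B.s v / φ v) ^ 2 else 0) := by
      refine Finset.sum_le_sum fun v _ => ?_
      by_cases h : r₀ / L ≤ φ v ∧ φ v ≤ L * R₀
      · rw [if_pos h, if_pos ⟨h.1, h.2.trans_lt hn⟩, mul_pow (2 * C * L)]
      · rw [if_neg h, zero_pow two_ne_zero]
        refine mul_nonneg (sq_nonneg _) ?_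
        split_ifs
        · exact sq_nonneg _
        · exact le_rfl
    rw [← Finset.mul_sum] at h2
    refine h2.trans ?_
    rw [mul_assoc ((2 * C * L) ^ 2)]
    refine mul_le_mul_of_nonneg_left (h1.trans ?_) (sq_nonneg _)
    have h3 : ((⌊y⌋₊ + 1 : ℕ) : ℝ) ≤ (2 * Real.log L + 1) * (Real.log (R₀ / r₀) + 1) := by
      have k := Nat.floor_le hy1
      have k2 := mul_nonneg hlog hy0
      push_cast
      nlinarith
    have h4 : 0 ≤ C * Real.exp 1 ^ 2 := by positivity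
    calc _ ≤ (2 * Real.log L + 1) * (Real.log (R₀ / r₀) + 1) * (C * Real.exp 1 ^ 2) :=
          mul_le_mul_of_nonneg_right h3 h4
      _ = _ := by ring

end KP3
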